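import Pool.Agent.R676.Cox.Geo
import Pool.Agent.Helper741.Matsumoto

/-!
# Minimal representatives of the cosets of parabolic subgroups of Coxeter groups of any rank
-/

set_option autoImplicit false

namespace Pool.Agent.J6H36.AR

open CoxeterSystem
open Pool.Agent.R676.Cox
open Pool.Agent.Helper741 (qs cc qs_nonneg aw alt aw_prod aw_eq_reverse)

variable {B W : Type} [Group W] {M : CoxeterMatrix B} (cs : CoxeterSystem M W)

/-! ## alternating words are reduced (any rank) -/

theorem isReduced_alternatingWord {i j : B} (hij : i ≠ j) {k : ℕ} (hk : M i j = 0 ∨ k ≤ M i j) :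
    cs.IsReduced (alternatingWord i j k) := by
  induction k generalizing i j with
  | zero =>
    unfold CoxeterSystem.IsReduced
    simp [alternatingWord]
  | succ k ih =>
    have hk' : M j i = 0 ∨ k + 1 ≤ M j i := by rwa [M.symmetric j i]
    have h1 : cs.IsReduced (alternatingWord j i k) := ih hij.symm (by omega)
    unfold CoxeterSystem.IsReduced at h1 ⊢
    rw [length_alternatingWord] at h1 ⊢
    rw [alternatingWord_succ, cs.wordProd_concat]
    have h2 : 0 ≤ geo cs (cs.wordProd (alternatingWord j i k)) (ee j) := by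
      rw [geo_wordProd, prod_alt_ee]
      have q1 : 0 ≤ qs (cc M j i) (k + 1) := qs_nonneg M hij.symm hk'
      have q2 : 0 ≤ qs (cc M j i) k := qs_nonneg M hij.symm (by omega)
      split_ifs
      · exact add_nonneg (smul_nonneg q1 (ee_nonneg j)) (smul_nonneg q2 (ee_nonneg i))
      · exact add_nonneg (smul_nonneg q1 (ee_nonneg i)) (smul_nonneg q2 (ee_nonneg j))
    rw [geo_nonneg_iff] at h2
    rcases cs.length_mul_simple (cs.wordProd (alternatingWord j i k)) j with h3 | h3 <;> omega

theorem isReduced_aw {i j : B} (hij : i ≠ j) {k : ℕ} (hk : M i j = 0 ∨ k ≤ M i j) :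
    cs.IsReduced (aw i j k) := by
  rw [aw_eq_reverse, cs.isReduced_reverse_iff]
  apply isReduced_alternatingWord cs hij.symm
  rwa [M.symmetric j i]

/-! ## words whose reflections are different are reduced -/

theorem reduced_of_lis (ω : List B) (h : (cs.leftInvSeq ω).Nodup) : cs.IsReduced ω := by
  induction ω with
  | nil => simp [CoxeterSystem.IsReduced]
  | cons i ω ih =>
    rw [CoxeterSystem.leftInvSeq, List.nodup_cons] at h
    obtain ⟨h1, h2⟩ := h
    have h3 : cs.IsReduced ω := ih (List.Nodup.of_map _ h2)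
    unfold CoxeterSystem.IsReduced at h3 ⊢
    by_contra hne
    have h4 : cs.length (cs.simple i * cs.wordProd ω) < cs.length (cs.wordProd ω) := by
      rw [cs.wordProd_cons, List.length_cons] at hne
      rcases cs.length_simple_mul (cs.wordProd ω) i with h5 | h5 <;> omega
    have h5 := Pool.Agent.Helper741.simple_mem_leftInvSeq cs ω i h4
    apply h1
    rw [List.mem_map]
    refine ⟨cs.simple i, h5, ?_⟩
    simp

theorem reduced_of_ris (ω : List B) (h : (cs.rightInvSeq ω).Nodup) : cs.IsReduced ω := by
  rw [← cs.isReduced_reverse_iff]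
  apply reduced_of_lis
  rw [cs.leftInvSeq_reverse, List.nodup_reverse]
  exact h

/-! ## minimal elements -/

variable (T : Set B)

/-- the parabolic subgroup -/
def WT : Subgroup W := Subgroup.closure (cs.simple '' T)

/-- `w` is minimal in `w W_T` -/
def Mn (w : W) : Prop := ∀ t ∈ T, 0 ≤ geo cs w (ee t)

theorem wt_supp {v : W} (hv : v ∈ WT cs T) : ∀ (u : B →₀ ℝ) (j : B), j ∉ T → geo cs v u j = u j := by
  classical
  induction hv using Subgroup.closure_induction with
  | mem x hx =>
    obtain ⟨t, ht, rfl⟩ := hx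
    intro u j hj
    have hne : t ≠ j := fun h => hj (h ▸ ht)
    rw [geo_simple, sg_apply, Finsupp.sub_apply, Finsupp.smul_apply, ee, Finsupp.single_apply,
      if_neg hne, smul_zero, sub_zero]
  | one =>
    intro u j _
    rw [map_one, Module.End.one_apply]
  | mul x y _ _ hx hy =>
    intro u j hj
    rw [map_mul, Module.End.mul_apply, hx _ j hj, hy _ j hj]
  | inv x _ hx =>
    intro u j hj
    have := hx (geo cs x⁻¹ u) j hj
    rw [geo_apply_inv] at this
    exact this.symm

theorem exists_min (w : W) : ∃ v ∈ WT cs T, Mn cs T (w * v) := by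
  classical
  have hex : ∃ n : ℕ, ∃ v ∈ WT cs T, cs.length (w * v) = n := ⟨_, 1, one_mem _, rfl⟩
  obtain ⟨v, hv, hl⟩ := Nat.find_spec hex
  refine ⟨v, hv, fun t ht => ?_⟩
  rw [geo_nonneg_iff]
  have h1 : ¬ cs.length (w * v * cs.simple t) < Nat.find hex := fun h =>
    Nat.find_min hex h ⟨v * cs.simple t, mul_mem hv (Subgroup.subset_closure ⟨t, ht, rfl⟩), by
      rw [mul_assoc]⟩
  have h2 : cs.length (w * v * cs.simple t) ≠ cs.length (w * v) := by
    rcases cs.length_mul_simple (w * v) t with h | h <;> omega
  omega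

theorem min_unique {d v : W} (hd : Mn cs T d) (hv : v ∈ WT cs T) (hd' : Mn cs T (d * v)) :
    v = 1 := by
  classical
  apply eq_one_of_geo cs
  intro i
  rcases lt_or_ge (cs.length v) (cs.length (v * cs.simple i)) with h | h
  · exact geo_nonneg cs v i h
  exfalso
  have h' : geo cs v (ee i) ≤ 0 := geo_nonpos cs v i (by
    rcases cs.length_mul_simple v i with h1 | h1 <;> omega)
  by_cases hi : i ∈ T
  · have h1 : 0 ≤ geo cs (d * v) (ee i) := hd' i hi
    have h2 : geo cs (d * v) (ee i) ≤ 0 := by
      rw [map_mul, Module.End.mul_apply]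
      have h3 : ∀ u : B →₀ ℝ, 0 ≤ u → (∀ j, j ∉ T → u j = 0) → 0 ≤ geo cs d u := by
        intro u hu huT
        rw [← Finsupp.sum_single u, Finsupp.sum, map_sum]
        refine Finset.sum_nonneg fun j hj => ?_
        have hjT : j ∈ T := by
          by_contra hc
          exact (Finsupp.mem_support_iff.1 hj) (huT j hc)
        have h4 : Finsupp.single j (u j) = u j • ee j := by
          rw [ee, Finsupp.smul_single, smul_eq_mul, mul_one]
        rw [h4, map_smul]
        exact smul_nonneg (hu j) (hd j hjT)
      have h5 := h3 (- geo cs v (ee i)) (neg_nonneg.2 h') (fun j hj => by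
        have hne : i ≠ j := fun h => hj (h ▸ hi)
        rw [Finsupp.neg_apply, wt_supp cs T hv _ j hj, ee, Finsupp.single_apply,
          if_neg hne, neg_zero])
      rw [map_neg] at h5
      exact neg_nonneg.1 h5
    exact geo_ee_ne_zero cs _ i (le_antisymm h2 h1)
  · have h1 := wt_supp cs T hv (ee i) i hi
    have h2 := h' i
    rw [h1, ee, Finsupp.single_eq_same, Finsupp.zero_apply] at h2
    linarith

/-- **Deodhar's lemma** -/
theorem deodhar {d : W} (hd : Mn cs T d) (s : B) (hs : ¬ Mn cs T (cs.simple s * d)) :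
    ∃ t ∈ T, cs.simple s * d = d * cs.simple t := by
  unfold Mn at hs
  push Not at hs
  obtain ⟨t, ht, hs⟩ := hs
  refine ⟨t, ht, ?_⟩
  have h1 := (geo_nonneg_iff cs d t).1 (hd t ht)
  have h2 : cs.length (cs.simple s * d * cs.simple t) < cs.length (cs.simple s * d) := by
    by_contra hc
    apply hs
    apply geo_nonneg
    rcases cs.length_mul_simple (cs.simple s * d) t with h | h <;> omega
  have h3 := cs.length_mul_simple d t
  have h4 := cs.length_simple_mul d s
  have h5 := cs.length_simple_mul (d * cs.simple t) s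
  rw [← mul_assoc] at h5
  have h6 : cs.length (cs.simple s * (d * cs.simple t)) < cs.length (d * cs.simple t) := by
    rw [← mul_assoc]
    omega
  obtain ⟨ω, hω, hωd⟩ := cs.exists_isReduced d
  have h7 : d * cs.simple t = cs.wordProd (ω.concat t) := by
    rw [cs.wordProd_concat, ← hωd]
  rw [h7] at h6
  have h8 := Pool.Agent.Helper741.simple_mem_leftInvSeq cs _ s h6
  rw [cs.leftInvSeq_concat, List.concat_eq_append, List.mem_append, List.mem_singleton] at h8
  rcases h8 with h8 | h8
  · exfalso
    have h9 := (cs.isLeftInversion_of_mem_leftInvSeq hω h8).2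
    rw [← hωd] at h9
    omega
  · rw [← hωd] at h8
    rw [h8]
    group

/-- the minimal representative -/
noncomputable def mrep (w : W) : W := w * (exists_min cs T w).choose

theorem mrep_min (w : W) : Mn cs T (mrep cs T w) := (exists_min cs T w).choose_spec.2

theorem mrep_mem (w : W) : w⁻¹ * mrep cs T w ∈ WT cs T := by
  rw [mrep, inv_mul_cancel_left]
  exact (exists_min cs T w).choose_spec.1

theorem mrep_eq {w d : W} (hd : Mn cs T d) (h : w⁻¹ * d ∈ WT cs T) : mrep cs T w = d := by
  have h1 : d⁻¹ * mrep cs T w ∈ WT cs T := by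
    have : d⁻¹ * mrep cs T w = (w⁻¹ * d)⁻¹ * (w⁻¹ * mrep cs T w) := by group
    rw [this]
    exact mul_mem (inv_mem h) (mrep_mem cs T w)
  have h2 := min_unique cs T hd h1 (by
    rw [mul_inv_cancel_left]
    exact mrep_min cs T w)
  rw [inv_mul_eq_one] at h2
  exact h2.symm

theorem mrep_stay {s t : B} (w : W) (ht : t ∈ T)
    (h : cs.simple s * mrep cs T w = mrep cs T w * cs.simple t) :
    mrep cs T (cs.simple s * w) = mrep cs T w := by
  apply mrep_eq cs T (mrep_min cs T w)
  have h1 : (cs.simple s * w)⁻¹ * mrep cs T w =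
      (w⁻¹ * mrep cs T w) * ((mrep cs T w)⁻¹ * (cs.simple s * mrep cs T w)) := by
    rw [mul_inv_rev, cs.inv_simple]
    group
  rw [h1, h, inv_mul_cancel_left]
  exact mul_mem (mrep_mem cs T w) (Subgroup.subset_closure ⟨t, ht, rfl⟩)

theorem mrep_move {s : B} (w : W)
    (h : ¬ ∃ t ∈ T, cs.simple s * mrep cs T w = mrep cs T w * cs.simple t) :
    mrep cs T (cs.simple s * w) = cs.simple s * mrep cs T w := by
  apply mrep_eq cs T
  · by_contra hc
    exact h (deodhar cs T (mrep_min cs T w) s hc)
  · have h1 : (cs.simple s * w)⁻¹ * (cs.simple s * mrep cs T w) = w⁻¹ * mrep cs T w := by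
      group
    rw [h1]
    exact mrep_mem cs T w

theorem mrep_one {w : W} (h : w ∈ WT cs T) : mrep cs T w = 1 := by
  apply mrep_eq cs T
  · intro t _
    rw [map_one, Module.End.one_apply]
    exact ee_nonneg t
  · rw [mul_one]
    exact inv_mem h

end Pool.Agent.J6H36.AR
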