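import Pool.Agent.Y110.FJ.Stm
import Pool.Agent.Y462.SS.Base

/-!
# Farrell-Jones for Artin groups: functions of finite range (definitions and statements of modules)

Owner helper36 (MP_e40716_gt). `C` is a class of groups with `ClosedE C`.
-/

set_option autoImplicit false

namespace Pool.Agent.J6H36.AR

open Pool.Agent.Y462.SS (Closed Wr)
open Pool.Agent.Y110.FJ (ClosedE)

/-- `FW X H Q`: the semidirect product of the group of all functions `X → H` of finite range by the
group `Q`, which acts on the set `X` (as a subgroup of `(H ≀ Sym X) × Q`) -/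
def FW (X H Q : Type) [Group H] [Group Q] [MulAction Q X] : Subgroup (Wr X H × Q) where
  carrier := {a | a.1.p = MulAction.toPerm a.2 ∧ (Set.range a.1.s).Finite}
  one_mem' := by
    refine ⟨?_, (Set.finite_singleton (1 : H)).subset ?_⟩
    · ext x
      simp
    · rintro _ ⟨v, rfl⟩
      rfl
  mul_mem' := by
    rintro a b ⟨ha, ha'⟩ ⟨hb, hb'⟩
    refine ⟨?_, (Set.Finite.image2 (· * ·) ha' hb').subset ?_⟩
    · show a.1.p * b.1.p = MulAction.toPerm (a.2 * b.2)
      rw [ha, hb]
      ext x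
      simp [mul_smul]
    · rintro _ ⟨v, rfl⟩
      exact ⟨_, ⟨b.1.p v, rfl⟩, _, ⟨v, rfl⟩, rfl⟩
  inv_mem' := by
    rintro a ⟨ha, ha'⟩
    refine ⟨?_, (Set.Finite.image (·⁻¹) ha').subset ?_⟩
    · show a.1.p⁻¹ = MulAction.toPerm (a.2⁻¹)
      rw [ha]
      ext x
      rw [Equiv.Perm.inv_eq_iff_eq]
      simp
    · rintro _ ⟨v, rfl⟩
      exact ⟨_, ⟨a.1.p⁻¹ v, rfl⟩, rfl⟩

/-- functions `ℤ → H` which are `p`-periodic near `+∞` and near `-∞`, extended by the shift -/
def EPer (p : ℕ) {H : Type} (a : Wr ℤ H) : Prop :=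
  (∃ n : ℤ, ∀ k, a.p k = k + n) ∧
  (∃ F : ZMod p → H, ∀ᶠ k : ℤ in Filter.atTop, a.s k = F (k : ZMod p)) ∧
  (∃ F : ZMod p → H, ∀ᶠ k : ℤ in Filter.atBot, a.s k = F (k : ZMod p))

/-- **Module EP** (paper proof). The group of the `EPer p` elements of `Wr ℤ H` is in `C` if `H` is
(any group `P` with an injective homomorphism to `Wr ℤ H` with values in `EPer p`).

Proof. Let `L ≤ Wr ℤ H × (Wr (ZMod p) H × Wr (ZMod p) H × Multiplicative ℤ)` be the subgroup of the
`(a, b, c, n)` with `a.p k = k + n`, `b.p r = r + n`, `c.p r = r + n`, `a.s k = b.s k` for all large `k`,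
`a.s k = c.s k` for all very negative `k`. The projection of `L` to `Wr ℤ H` is injective with image
the set of the `EPer p` elements. So it suffices that `L` is in `C`. Apply
`Pool.Agent.R779.FJ.t_crit Pool.Agent.Y529.FJ.t_ext (Pool.Agent.Y961.FJ.t_perm Pool.Agent.Y529.FJ.t_ext) C hC L N`
with `N` the kernel of the projection `L → Wr (ZMod p) H × Wr (ZMod p) H × Multiplicative ℤ`; the
quotient embeds in the latter, which is in `C` (`Pool.Agent.Y812.SS.t_wr`, `Closed.prod`, `Closed.int`).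
`N` consists of the finitely supported functions. Let `g = (a, b, c, n)` and `E ⊆ N` finite,
all `e` in `E` trivial off `[-m, m]`. Let `X = [-R, R]`, `R = m + |n|`, `π` a permutation of `X` with
`π k = k + n` for `|k| ≤ m` (`Set.MapsTo.exists_equiv_extend_of_card_eq` or similar). Take
`P = Wr X H`, `f w = ⟨restriction of w.s to X, 1⟩` on `⟨E ∪ g E g⁻¹⟩` (all its elements are trivial off
`X`) and `p = ⟨restriction of a.s to X, π⟩`. -/
def S_EP : Prop := ∀ C : ∀ (G : Type) [Group G], Prop, ClosedE C →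
  ∀ (p : ℕ) (H P : Type) [Group H] [Group P], 0 < p → C H →
  ∀ i : P →* Wr ℤ H, Function.Injective i → (∀ x, EPer p (i x)) → C P

/-- **Module FW** (paper proof, from `S_EP`). `FW X H Q` is in `C` if `H` and `Q` are.

Proof. `t_crit` with `N` the kernel of the projection `FW X H Q → Q`. Let `g = (u, q)`, `E ⊆ N` finite.
Let `λ x = ((e.s x)_{e ∈ E}, u.s x)`, which has finite range; choose `σ x` with `λ (σ x) = λ x` that
depends only on `λ x` (so `σ` has finite range). Let `F x = q • σ x` and `B x = σ (q⁻¹ • x)`; both have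
finite range, so there is `p > 0` such that for all large `k : ℕ` and all `x`:
`F^[k+p] x = F^[k] x`, `B^[k+p] x = B^[k] x` (pigeonhole on the self-maps of the range). For `x` in `X`
let `ξ x k = F^[k] x` for `k ≥ 0` and `ξ x (-k) = B^[k] x`. Then `λ (q⁻¹ • ξ x k) = λ (ξ x (k-1))` for
all `k : ℤ`. For `w` in `⟨E ∪ g E g⁻¹⟩` the value `w.s y` depends only on `λ (q⁻¹ • y)` and `λ y`.
Let `Y ⊆ X` be finite such that each `x` in `X` has the same `(λ (q⁻¹ • x), λ x)` as some `y` in `Y`
(note `ξ y 0 = y`). Take `P = (Y → L)` where `L` is the group of the `EPer p` elements of `Wr ℤ H`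
(in `C` by `S_EP`, finite powers: `Pool.Agent.Y812.SS.C_pow`),
`f w = fun y => ⟨fun k => w.s (ξ y k), 1⟩` and the element `fun y => ⟨fun k => u.s (ξ y k), (· + 1)⟩`
(convention of `Wr`: `(g * x * g⁻¹).s z = g.s (g.p⁻¹ z) * x.s (g.p⁻¹ z) * (g.s (g.p⁻¹ z))⁻¹` if `x.p = 1`). -/
def S_FW : Prop := ∀ C : ∀ (G : Type) [Group G], Prop, ClosedE C →
  ∀ (X H Q : Type) [Group H] [Group Q] [MulAction Q X], C H → C Q → C (FW X H Q)

end Pool.Agent.J6H36.AR
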