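import Pool.Agent.R676.Cox.Root
import Pool.Agent.J6H36.AR.Cox

/-!
# Virtual Artin groups: definitions and statements of modules

Owner helper36 (MP_e40716_gt).
-/

set_option autoImplicit false

namespace Pool.Agent.J6H36.AR

open CoxeterSystem
open Pool.Agent.R676.Cox

variable {B W : Type} [Group W] {M : CoxeterMatrix B}

/-- the roots (of the geometric representation) -/
def Phi (cs : CoxeterSystem M W) : Type := {v : B →₀ ℝ // ∃ (w : W) (i : B), v = geo cs w (ee i)}

/-- the action of the Coxeter group on the roots -/
noncomputable instance (cs : CoxeterSystem M W) : MulAction W (Phi cs) where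
  smul w v := ⟨geo cs w v.1, by
    obtain ⟨u, i, h⟩ := v.2
    exact ⟨w * u, i, by rw [h, map_mul, Module.End.mul_apply]⟩⟩
  one_smul v := Subtype.ext (by show geo cs 1 v.1 = v.1; rw [map_one, Module.End.one_apply])
  mul_smul u w v := Subtype.ext (by
    show geo cs (u * w) v.1 = geo cs u (geo cs w v.1)
    rw [map_mul, Module.End.mul_apply])

open Classical in
/-- the label of two roots: `M i j` if they are `w α_i` and `w α_j` for some `w`, and `0` (infinity)
otherwise -/
noncomputable def lab (cs : CoxeterSystem M W) (β γ : Phi cs) : ℕ :=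
  if h : ∃ p : W × B × B, β.1 = geo cs p.1 (ee p.2.1) ∧ γ.1 = geo cs p.1 (ee p.2.2) then
    M h.choose.2.1 h.choose.2.2 else 0

/-- **Module VA-2**. The label is well defined.

Proof. If `w α_i = w' α_i'` and `w α_j = w' α_j'` then `bil M (ee i) (ee j) = bil M (ee i') (ee j')`
(`bil_geo`), that is `-2 cos (π / M i j) = -2 cos (π / M i' j')` (`bil_ee_left`, `coroot_ee`, `cc`), also
`i = j ↔ i' = j'`. For `i = j` both labels are 1. For `i ≠ j` both labels are `0` or at least 2
(`Pool.Agent.Helper741.two_le_of_ne`); the angle `π / M i j` (which is `0` for `M i j = 0`) is in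
`[0, π / 2]`, where `cos` is injective. -/
def S_LAB : Prop := ∀ (B W : Type) [Group W] (M : CoxeterMatrix B) (cs : CoxeterSystem M W)
  (β γ : Phi cs) (w : W) (i j : B), β.1 = geo cs w (ee i) → γ.1 = geo cs w (ee j) →
  lab cs β γ = M i j

/-- **Module VA-1**. The groupoid of the simple roots is generated by the elementary dihedral moves
(Deodhar, Brink-Howlett), in the form needed for virtual Artin groups.

Proof. Strong induction on `cs.length w`, for all `s, t`. If `w = 1` then `s = t`
(`simple_injective` or evaluate `ee s = ee t`). Otherwise let `r` be a right descent of `w`; since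
`w α_s = α_t > 0` is positive (`geo_nonneg_iff`), `r ≠ s`. Let `T = {s, r}`, `d = mrep cs T w`,
`v = d⁻¹ * w ∈ WT cs T` (`mrep_mem`). Then `v ≠ 1` (otherwise `w = d` is minimal (`mrep_min`), but `r` is a
descent), and `length d < length w` (`d` has minimal length in `w W_T`: by `exists_min` and
`mrep_eq` the element of minimal length of the coset is `d`; `w r` is in the coset and shorter than `w`;
prove `length (mrep cs T w) ≤ length (w * u)` for `u ∈ WT cs T` first, by choosing `u` of minimal length as in
`exists_min`). By `wt_supp`, `v α_s = a α_s + b α_r`. It is positive or negative (all roots are); if it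
were negative then `α_t = d (v α_s)` would be `≤ 0`. So `a, b ≥ 0`, `α_t = a (d α_s) + b (d α_r)` with
`d α_s, d α_r ≥ 0` nonzero. If `a, b > 0` both are supported at `t`, hence multiples of `α_t`,
contradiction with the injectivity of `geo cs d`. So `v α_s = a α_s` or `v α_s = b α_r`, and
`a = 1`, `b = 1` since `bil M` is invariant and `bil M (ee i) (ee i) = 2`. So `v α_s = α_x` with `x ∈ {s, r}`,
`d α_x = α_t`; induction gives `τ d * σ x * (τ d)⁻¹ = σ t`. It remains that
`τ v * σ s * (τ v)⁻¹ = σ x` for `v ∈ WT cs {s, r}`, `v ≠ 1`, `v α_s = α_x`. Now `v` is the product of an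
alternating word `alternatingWord s r k` (it ends with `r`, as `s` is not a right descent of `v`), of
length `k = length v` (induction: a nontrivial element of `WT cs {s, r}` has a right descent in `{s, r}`,
by `min_unique` with `d = 1`), and `k ≤ M s r` if `M s r ≠ 0` (longer alternating words are not
reduced). By `prod_alt_ee` (and `geo_wordProd`) the coefficients of `v α_s` are `qs (cc M s r) (k + 1)` and
`qs (cc M s r) k`. One of them is `0`, and `k ≥ 1`; for `M s r = 0` this is impossible
(`qs 1 k = k`), for `m = M s r ≥ 2` one has `qs (cos (π/m)) k = sin (k π / m) / sin (π / m)`, so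
`k = m` or `k + 1 = m`; for `k = m` the vector is `- α` (negative), so `k = m - 1` and `h3` applies. -/
def S_KEY : Prop := ∀ (B W G : Type) [Group W] [Group G] (M : CoxeterMatrix B)
  (cs : CoxeterSystem M W) (τ : W →* G) (σ : B → G)
  (_ : ∀ s r : B, s ≠ r → M s r ≠ 0 →
    τ (cs.wordProd (alternatingWord s r (M s r - 1))) * σ s *
      (τ (cs.wordProd (alternatingWord s r (M s r - 1))))⁻¹ = σ (if Even (M s r) then s else r))
  (w : W) (s t : B), geo cs w (ee s) = ee t → τ w * σ s * (τ w)⁻¹ = σ t

end Pool.Agent.J6H36.AR
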