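import Pool.Agent.J6H36.AR.Semi

/-!
# Direct products of Artin groups
-/

set_option autoImplicit false

namespace Pool.Agent.J6H36.AR

open Pool.Agent.Helper741 (aw alt Artin subM subM_apply incl incl_gen proj retr retr_mul_retr)
open Pool.Agent.Y462.SS (Closed Wr)
open Pool.Agent.Y110.FJ (ClosedE Amg)

variable {C : ∀ (G : Type) [Group G], Prop}

theorem C_split (hC : Closed C) {B : Type} {M : CoxeterMatrix B} {T : Set B}
    (hT : Pool.Agent.Helper741.Closed M T) (h1 : C (Artin (subM M T)))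
    (h2 : C (Artin (subM M Tᶜ))) : C (Artin M) := by
  refine hC.of_injective _ _ ((proj hT).prod (proj hT.compl)) ?_ (hC.prod _ _ h1 h2)
  rw [injective_iff_map_eq_one]
  intro x hx
  have h3 : proj hT x = 1 := congrArg Prod.fst hx
  have h4 : proj hT.compl x = 1 := congrArg Prod.snd hx
  rw [← retr_mul_retr hT x, retr, retr, MonoidHom.comp_apply, MonoidHom.comp_apply, h3, h4,
    map_one, map_one, one_mul]

/-- `K` is connected: it is not the union of two nonempty parts such that all labels between the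
parts are `2` -/
def Conn {B : Type} (M : CoxeterMatrix B) (K : Set B) : Prop :=
  K.Nonempty ∧ ∀ T ⊆ K, T.Nonempty → (K \ T).Nonempty → ∃ i ∈ T, ∃ j ∈ K \ T, M i j ≠ 2

theorem C_conn (hC : Closed C) {B : Type} {M : CoxeterMatrix B}
    (hK : ∀ K : Set B, K.Finite → (∀ i ∈ K, ∀ j ∈ K, M i j ≠ 0) → Conn M K →
      C (Artin (subM M K))) (n : ℕ) :
    ∀ K : Set B, K.Finite → K.ncard = n → (∀ i ∈ K, ∀ j ∈ K, M i j ≠ 0) →
      C (Artin (subM M K)) := by
  induction n using Nat.strong_induction_on with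
  | _ n ih =>
  intro K hfin hn hK0
  by_cases hne : K.Nonempty
  swap
  · rw [Set.not_nonempty_iff_eq_empty] at hne
    have hsub : Subsingleton (Artin (subM M K)) := by
      refine ⟨fun x y => ?_⟩
      have key : ∀ x : Artin (subM M K), x = 1 := by
        intro x
        induction x using Artin.induction with
        | one => rfl
        | gen t => exact absurd t.2 (Set.eq_empty_iff_forall_notMem.1 hne t.1)
        | mul x y hx hy => rw [hx, hy, one_mul]
        | inv x hx => rw [hx, inv_one]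
      rw [key x, key y]
    exact Pool.Agent.Y812.SS.C_subsingleton hC _
  by_cases hc : Conn M K
  · exact hK K hfin hK0 hc
  · unfold Conn at hc
    push Not at hc
    obtain ⟨T, hTK, hT, hT', h2⟩ := hc hne
    have hcl : Pool.Agent.Helper741.Closed (subM M K) {x | x.1 ∈ T} := by
      intro i hi j hj
      exact h2 i.1 hi j.1 ⟨j.2, hj⟩
    have l1 : T.ncard < n := by
      rw [← hn]
      refine Set.ncard_lt_ncard ⟨hTK, fun h => ?_⟩ hfin
      obtain ⟨x, hx⟩ := hT'
      exact hx.2 (h hx.1)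
    have l2 : (K \ T).ncard < n := by
      rw [← hn]
      refine Set.ncard_lt_ncard ⟨Set.sdiff_subset, fun h => ?_⟩ hfin
      obtain ⟨x, hx⟩ := hT
      exact (h (hTK hx)).2 hx
    refine C_split hC hcl ?_ ?_
    · let e : {x : K // x ∈ ({x | x.1 ∈ T} : Set K)} ≃ T :=
        ⟨fun x => ⟨x.1.1, x.2⟩, fun x => ⟨⟨x.1, hTK x.2⟩, x.2⟩, fun x => rfl, fun x => rfl⟩
      exact C_relab hC e (fun i j => rfl) (ih _ l1 T (hfin.subset hTK) rfl
        fun i hi j hj => hK0 i (hTK hi) j (hTK hj))
    · let e : {x : K // x ∈ ({x | x.1 ∈ T} : Set K)ᶜ} ≃ (K \ T : Set B) :=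
        ⟨fun x => ⟨x.1.1, x.1.2, x.2⟩, fun x => ⟨⟨x.1, x.2.1⟩, x.2.2⟩, fun x => rfl, fun x => rfl⟩
      exact C_relab hC e (fun i j => rfl) (ih _ l2 (K \ T) (hfin.subset Set.sdiff_subset) rfl
        fun i hi j hj => hK0 i hi.1 j hj.1)

/-- it suffices to consider connected sets -/
theorem conn_suff (hC : Closed C) {B : Type} {M : CoxeterMatrix B}
    (hK : ∀ K : Set B, K.Finite → (∀ i ∈ K, ∀ j ∈ K, M i j ≠ 0) → Conn M K →
      C (Artin (subM M K))) :
    ∀ K : Set B, K.Finite → (∀ i ∈ K, ∀ j ∈ K, M i j ≠ 0) → C (Artin (subM M K)) :=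
  fun K hfin h0 => C_conn hC hK _ K hfin rfl h0

end Pool.Agent.J6H36.AR
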