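import Pool.Agent.J6H36.AR.Defs2
import Pool.Agent.J6H36.AR.Irr

/-!
# Virtual braid groups: statements of modules

Owner helper36 (MP_e40716_gt).
-/

set_option autoImplicit false

namespace Pool.Agent.J6H36.AR

open CoxeterSystem
open Pool.Agent.R676.Cox

/-- the Coxeter matrix of a cycle (affine type `Ã_{m-1}` for `m ≥ 3`): `3` for neighbours in the cyclic
order of `ZMod m`, and `2` for other pairs -/
def cyc (m : ℕ) : CoxeterMatrix (ZMod m) where
  M := Matrix.of fun i j => if i = j then 1 else if j = i + 1 ∨ i = j + 1 then 3 else 2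
  isSymm := by
    ext i j
    simp only [Matrix.transpose_apply, Matrix.of_apply]
    by_cases h : i = j
    · rw [if_pos h.symm, if_pos h]
    · rw [if_neg (Ne.symm h), if_neg h]
      by_cases h2 : i = j + 1 ∨ j = i + 1
      · rw [if_pos h2, if_pos h2.symm]
      · rw [if_neg h2, if_neg (fun h3 => h2 h3.symm)]
  diagonal i := by simp
  off_diagonal i j h := by
    simp only [Matrix.of_apply]
    rw [if_neg h]
    split_ifs <;> decide

/-- **Module AR-5**. A connected finite system of arcs is a path or a cycle, so it embeds in a cycle.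

Proof. `β ↦ γ` if `tgt β = src γ` is a partial injection of `K` (targets, sources are distinct). If there
is `β₀` without predecessor, follow it: `β₀, β₁, …, β_{k-1}` (until there is no successor; all different);
no arc outside this set is joined to it (the neighbours of `β_i` are `β_{i-1}`, `β_{i+1}`), so by
connectivity it is all of `K`; take `m = k + 2` and `f β_i = i`. Otherwise the successor is a
permutation of the finite set `K`; the orbit of any `β` is closed under neighbours, so it is all of `K`;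
its length `m` is at least `3` (not `1` since `src β ≠ tgt β`, not `2` by the third condition);
take `f` with `f (next β) = f β + 1`. -/
def S_ARC : Prop := ∀ (K : Type) (_ : Finite K) (N : CoxeterMatrix K) (src tgt : K → ℕ),
  (∀ β, src β ≠ tgt β) →
  (∀ β γ, β ≠ γ → src β ≠ src γ ∧ tgt β ≠ tgt γ ∧ ¬ (tgt β = src γ ∧ tgt γ = src β) ∧
    N β γ = if tgt β = src γ ∨ tgt γ = src β then 3 else 2) →
  Conn N Set.univ →
  ∃ m : ℕ, 3 ≤ m ∧ ∃ f : K → ZMod m, Function.Injective f ∧ ∀ x y, cyc m (f x) (f y) = N x y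

/-- **Module AR-6**. The roots of type `A_n` are the arcs `(a, b)`, `a ≠ b`, on `0, …, n`.

Proof. Let `L : (Fin n →₀ ℝ) → (ℕ → ℝ)` be linear with `L e_i = δ_i - δ_{i+1}`, and let `W` act on
`Fin (n+1)` or `ℕ` by `s_i ↦ swap i (i+1)` (`toCoxeterSystem.lift`). Then `L (geo w v) = L v ∘ (p w)⁻¹`
(check on generators: `sg_ee`, `cc = cos (π / M i j)` is `-1`, `1/2`, `0` for `M = 1, 3, 2`). So
`L (w α_i) = δ_{p w i} - δ_{p w (i+1)}`; let `src`, `tgt` be the indices of the coordinates `1` and `-1`.
If `lab β γ ≠ 0` then `β = w α_i`, `γ = w α_j`, `lab β γ = M i j` (`S_LAB`), `i ≠ j`, and all claims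
follow from the injectivity of `p w` and the values of `CoxeterMatrix.A n`. -/
def S_ROOTA : Prop := S_LAB → ∀ n : ℕ,
  ∃ src tgt : Phi (CoxeterMatrix.A n).toCoxeterSystem → ℕ, (∀ β, src β ≠ tgt β) ∧
  ∀ β γ, β ≠ γ → lab (CoxeterMatrix.A n).toCoxeterSystem β γ ≠ 0 →
    src β ≠ src γ ∧ tgt β ≠ tgt γ ∧ ¬ (tgt β = src γ ∧ tgt γ = src β) ∧
    lab (CoxeterMatrix.A n).toCoxeterSystem β γ = if tgt β = src γ ∨ tgt γ = src β then 3 else 2

end Pool.Agent.J6H36.AR
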