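import Pool.Agent.J6H36.AR.Rho
import Pool.Agent.Y417.FJ.Am
import Pool.Agent.Y961.FJ.Perm
import Pool.Agent.Y529.FJ.Ext

/-!
# Artin groups of finite rank
-/

set_option autoImplicit false

namespace Pool.Agent.J6H36.AR

open Pool.Agent.Helper741 (aw alt Artin subM subM_apply incl incl_gen map_alt alt_zero)
open Pool.Agent.Y462.SS (Closed Wr)
open Pool.Agent.Y110.FJ (ClosedE Amg)

variable {C : ∀ (G : Type) [Group G], Prop}

/-- relabelling -/
def relab {B B' : Type} {M : CoxeterMatrix B} {M' : CoxeterMatrix B'} (f : B → B')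
    (h : ∀ i j, M' (f i) (f j) = M i j) : Artin M →* Artin M' :=
  Artin.lift (fun i => Artin.gen M' (f i)) (fun i j => by
    rw [← h]; exact Artin.rel _ _)

theorem relab_gen {B B' : Type} {M : CoxeterMatrix B} {M' : CoxeterMatrix B'} (f : B → B')
    (h : ∀ i j, M' (f i) (f j) = M i j) (i : B) :
    relab f h (Artin.gen M i) = Artin.gen M' (f i) := Artin.lift_gen _ _ i

theorem C_relab (hC : Closed C) {B B' : Type} {M : CoxeterMatrix B} {M' : CoxeterMatrix B'}
    (e : B ≃ B') (h : ∀ i j, M' (e i) (e j) = M i j) (h' : C (Artin M')) : C (Artin M) := by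
  refine hC.of_injective _ _ (relab e h) ?_ h'
  have h2 : ∀ i j, M (e.symm i) (e.symm j) = M' i j := fun i j => by
    rw [← h, e.apply_symm_apply, e.apply_symm_apply]
  have h3 : (relab e.symm h2).comp (relab e h) = MonoidHom.id (Artin M) := by
    apply Artin.hom_ext
    intro i
    rw [MonoidHom.comp_apply, relab_gen, relab_gen, e.symm_apply_apply]
    rfl
  intro x y hxy
  have := congrArg (relab e.symm h2) hxy
  rw [← MonoidHom.comp_apply, ← MonoidHom.comp_apply, h3] at this
  exact this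

/-- an Artin group with `M s t = ∞` is an amalgamated product -/
theorem amg {B : Type} (M : CoxeterMatrix B) {s t : B} (h : M s t = 0) :
    Amg (incl M {s}ᶜ).range (incl M {t}ᶜ).range (Subgroup.closure (Artin.gen M '' {s, t}ᶜ)) where
  le_left := by
    rw [Subgroup.closure_le]
    rintro _ ⟨u, hu, rfl⟩
    exact ⟨Artin.gen _ ⟨u, fun hc => hu (Or.inl hc)⟩, incl_gen _ _ _⟩
  le_right := by
    rw [Subgroup.closure_le]
    rintro _ ⟨u, hu, rfl⟩
    exact ⟨Artin.gen _ ⟨u, fun hc => hu (Or.inr hc)⟩, incl_gen _ _ _⟩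
  gen := by
    rw [eq_top_iff, ← Artin.closure_range_gen, Subgroup.closure_le]
    rintro _ ⟨u, rfl⟩
    have hst : s ≠ t := by
      rintro rfl
      rw [M.diagonal] at h
      exact one_ne_zero h
    by_cases hu : u = s
    · apply Subgroup.mem_sup_right
      exact ⟨Artin.gen _ ⟨u, fun hc => hst (hu.symm.trans hc)⟩, incl_gen _ _ _⟩
    · apply Subgroup.mem_sup_left
      exact ⟨Artin.gen _ ⟨u, hu⟩, incl_gen _ _ _⟩
  univ := by
    intro H _ f g hfg
    classical
    have hst : s ≠ t := by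
      rintro rfl
      rw [M.diagonal] at h
      exact one_ne_zero h
    let F : Artin (subM M {s}ᶜ) →* H := f.comp (incl M {s}ᶜ).rangeRestrict
    let G : Artin (subM M {t}ᶜ) →* H := g.comp (incl M {t}ᶜ).rangeRestrict
    let k : B → H := fun u => if hu : u ≠ s then F (Artin.gen _ ⟨u, hu⟩)
      else if hu' : u ≠ t then G (Artin.gen _ ⟨u, hu'⟩) else 1
    have hA : ∀ u (hu : u ≠ s), k u = F (Artin.gen _ ⟨u, hu⟩) := fun u hu => dif_pos hu
    have hB : ∀ u (hu : u ≠ t), k u = G (Artin.gen _ ⟨u, hu⟩) := by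
      intro u hu
      by_cases hus : u = s
      · show (if hu : u ≠ s then _ else _) = _
        rw [dif_neg (not_not.2 hus), dif_pos hu]
      · rw [hA u hus]
        have h1 : (Artin.gen M u) ∈ Subgroup.closure (Artin.gen M '' {s, t}ᶜ) :=
          Subgroup.subset_closure ⟨u, fun hc => hc.elim hus hu, rfl⟩
        have h2 := hfg _ h1
        show f _ = g _
        have h3 : (incl M {s}ᶜ).rangeRestrict (Artin.gen _ ⟨u, hus⟩) =
            ⟨Artin.gen M u, ⟨Artin.gen _ ⟨u, hus⟩, incl_gen _ _ _⟩⟩ :=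
          Subtype.ext (incl_gen _ _ _)
        have h4 : (incl M {t}ᶜ).rangeRestrict (Artin.gen _ ⟨u, hu⟩) =
            ⟨Artin.gen M u, ⟨Artin.gen _ ⟨u, hu⟩, incl_gen _ _ _⟩⟩ :=
          Subtype.ext (incl_gen _ _ _)
        rw [h3, h4]
        exact h2
    have hrel : ∀ i j, alt (k i) (k j) (M i j) = alt (k j) (k i) (M i j) := by
      intro i j
      by_cases h1 : i ≠ s ∧ j ≠ s
      · rw [hA i h1.1, hA j h1.2, ← map_alt, ← map_alt]
        congr 1
        exact Artin.rel (M := subM M {s}ᶜ) ⟨i, h1.1⟩ ⟨j, h1.2⟩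
      by_cases h2 : i ≠ t ∧ j ≠ t
      · rw [hB i h2.1, hB j h2.2, ← map_alt, ← map_alt]
        congr 1
        exact Artin.rel (M := subM M {t}ᶜ) ⟨i, h2.1⟩ ⟨j, h2.2⟩
      have h3 : M i j = 0 := by
        rw [not_and_or, not_not, not_not] at h1 h2
        rcases h1 with h1 | h1 <;> rcases h2 with h2 | h2
        · exact absurd (h1.symm.trans h2) hst
        · rw [h1, h2, h]
        · rw [h1, h2, M.symmetric, h]
        · exact absurd (h1.symm.trans h2) hst
      rw [h3, alt_zero, alt_zero]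
    refine ⟨Artin.lift k hrel, ?_, ?_⟩
    · rintro ⟨_, x, rfl⟩
      have h1 : (Artin.lift k hrel).comp (incl M {s}ᶜ) = F := by
        apply Artin.hom_ext
        rintro ⟨u, hu⟩
        rw [MonoidHom.comp_apply, incl_gen, Artin.lift_gen]
        exact hA u hu
      exact DFunLike.congr_fun h1 x
    · rintro ⟨_, x, rfl⟩
      have h1 : (Artin.lift k hrel).comp (incl M {t}ᶜ) = G := by
        apply Artin.hom_ext
        rintro ⟨u, hu⟩
        rw [MonoidHom.comp_apply, incl_gen, Artin.lift_gen]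
        exact hB u hu
      exact DFunLike.congr_fun h1 x

/-- **Artin groups of finite rank** -/
theorem fin_main (hC : ClosedE C) (hFW : S_FW)
    (hcox : ∀ (S : Type) (_ : Finite S) (A : CoxeterMatrix S), C A.Group) (n : ℕ) :
    ∀ (B : Type) (_ : Finite B) (M : CoxeterMatrix B), Nat.card B = n →
      (∀ K : Set B, (∀ i ∈ K, ∀ j ∈ K, M i j ≠ 0) → C (Artin (subM M K))) → C (Artin M) := by
  induction n using Nat.strong_induction_on with
  | _ n ih =>
  intro B hfin M hn hK
  by_cases hall : ∀ i j, M i j ≠ 0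
  · exact C_relab hC.base (Equiv.Set.univ B).symm (fun i j => rfl)
      (hK Set.univ fun i _ j _ => hall i j)
  push Not at hall
  obtain ⟨s, t, hst⟩ := hall
  have key : ∀ u : B, C (Artin (subM M {u}ᶜ)) := by
    intro u
    refine ih (Nat.card ↥({u}ᶜ : Set B)) ?_ _ inferInstance _ rfl ?_
    · rw [← hn]
      exact Finite.card_subtype_lt (p := fun v => v ∈ ({u}ᶜ : Set B)) (x := u) (fun h => h rfl)
    · intro K hKK
      refine C_relab hC.base (Equiv.Set.image Subtype.val K Subtype.val_injective)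
        (M' := subM M (Subtype.val '' K)) (fun i j => rfl) (hK _ ?_)
      rintro _ ⟨i, hi, rfl⟩ _ ⟨j, hj, rfl⟩
      exact hKK i hi j hj
  have hW : C M.Group := hcox B hfin M
  refine Pool.Agent.Y417.FJ.t_am (Pool.Agent.Y961.FJ.t_perm Pool.Agent.Y529.FJ.t_ext) C hC
    (Artin M) (FW M.Group (Artin (subM M {s}ᶜ)) M.Group × FW M.Group (Artin (subM M {t}ᶜ)) M.Group)
    _ _ _ (amg M hst)
    ((rhoC M.toCoxeterSystem {s}ᶜ).prod (rhoC M.toCoxeterSystem {t}ᶜ)) ?_ ?_
    (hC.base.prod _ _ (hFW C hC _ _ _ (key s) hW) (hFW C hC _ _ _ (key t) hW))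
  · rintro _ ⟨x, rfl⟩ hx
    have h1 := congrArg Prod.fst hx
    rw [rhoC_inj M.toCoxeterSystem {s}ᶜ x h1, map_one]
  · rintro _ ⟨x, rfl⟩ hx
    have h1 := congrArg Prod.snd hx
    rw [rhoC_inj M.toCoxeterSystem {t}ᶜ x h1, map_one]

end Pool.Agent.J6H36.AR
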