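import Pool.Agent.J6H36.AR.Cox
import Pool.Agent.J6H36.AR.Defs
import Pool.Agent.Helper741.Reduction
import Pool.Agent.N77.CX.Par

/-!
# The homomorphism of an Artin group to functions with values in a parabolic subgroup
-/

set_option autoImplicit false

namespace Pool.Agent.J6H36.AR

open CoxeterSystem
open Pool.Agent.R676.Cox (geo ee simple_injective)
open Pool.Agent.Helper741 (aw alt aw_prod aw_length Artin subM incl incl_gen matsumoto alt_comm_of_pow)
open Pool.Agent.Y462.SS (Wr)

section abs

variable {B W E : Type} [Group W] [Group E] {M : CoxeterMatrix B} (cs : CoxeterSystem M W)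
  (ι : W →* E) (T : Set B) (rep : E → E)

/-- `s` moves the representative of `y` to itself times a simple reflection of `T` -/
def St (s : B) (y : E) : Prop :=
  ∃ t : T, ι (cs.simple s) * rep y = rep y * ι (cs.simple t.1)

/-- a system of representatives with the exchange property -/
structure Rep : Prop where
  stay : ∀ (s : B) (y : E), St cs ι T rep s y → rep (ι (cs.simple s) * y) = rep y
  move : ∀ (s : B) (y : E), ¬ St cs ι T rep s y →
    rep (ι (cs.simple s) * y) = ι (cs.simple s) * rep y

open Classical in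
/-- the letter of `T` -/
noncomputable def step (s : B) (y : E) : List T :=
  if h : St cs ι T rep s y then [h.choose] else []

variable {cs ι T rep} in
theorem step_some {s : B} {y : E} (h : St cs ι T rep s y) :
    ∃ t : T, step cs ι T rep s y = [t] ∧ ι (cs.simple s) * rep y = rep y * ι (cs.simple t.1) :=
  ⟨h.choose, by rw [step, dif_pos h], h.choose_spec⟩

variable {cs ι T rep} in
theorem step_none {s : B} {y : E} (h : ¬ St cs ι T rep s y) : step cs ι T rep s y = [] := by
  rw [step, dif_neg h]

/-- the word over `T` -/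
noncomputable def tau : List B → E → List T
  | [], _ => []
  | s :: ω, y => step cs ι T rep s (ι (cs.wordProd ω) * y) ++ tau ω y

theorem tau_nil (y : E) : tau cs ι T rep [] y = [] := by rw [tau]

theorem tau_cons (s : B) (ω : List B) (y : E) : tau cs ι T rep (s :: ω) y =
    step cs ι T rep s (ι (cs.wordProd ω) * y) ++ tau cs ι T rep ω y := by rw [tau]

variable {cs ι T rep}

theorem tau_prod (h : Rep cs ι T rep) (ω : List B) (y : E) :
    ι (cs.wordProd ω) * rep y =
      rep (ι (cs.wordProd ω) * y) * ι (cs.wordProd ((tau cs ι T rep ω y).map Subtype.val)) := by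
  induction ω with
  | nil => rw [tau_nil]; simp
  | cons s ω ih =>
    rw [tau_cons, List.map_append, cs.wordProd_append, cs.wordProd_cons, map_mul, mul_assoc, ih,
      mul_assoc]
    by_cases hs : St cs ι T rep s (ι (cs.wordProd ω) * y)
    · obtain ⟨t, ht, ht'⟩ := step_some hs
      rw [ht, h.stay _ _ hs, List.map_singleton, cs.wordProd_singleton, map_mul,
        ← mul_assoc, ht', mul_assoc]
    · rw [step_none hs, h.move _ _ hs, List.map_nil, cs.wordProd_nil, one_mul, mul_assoc]

theorem tau_ris (h : Rep cs ι T rep) (ω : List B) (y : E) :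
    ((cs.rightInvSeq ((tau cs ι T rep ω y).map Subtype.val)).map
      (fun r => rep y * ι r * (rep y)⁻¹)).Sublist ((cs.rightInvSeq ω).map ι) := by
  induction ω with
  | nil => rw [tau_nil]; simp
  | cons s ω ih =>
    rw [tau_cons]
    by_cases hs : St cs ι T rep s (ι (cs.wordProd ω) * y)
    · obtain ⟨t, ht, h3⟩ := step_some hs
      rw [ht, List.singleton_append, List.map_cons, CoxeterSystem.rightInvSeq,
        CoxeterSystem.rightInvSeq, List.map_cons, List.map_cons]
      have h1 : rep y * ι ((cs.wordProd ((tau cs ι T rep ω y).map Subtype.val))⁻¹ *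
          cs.simple t.1 * cs.wordProd ((tau cs ι T rep ω y).map Subtype.val)) *
          (rep y)⁻¹ = ι ((cs.wordProd ω)⁻¹ * cs.simple s * cs.wordProd ω) := by
        have h2 := tau_prod h ω y
        rw [map_mul, map_mul, map_inv, map_mul, map_mul, map_inv]
        obtain ⟨r, hr⟩ : ∃ r, r = rep (ι (cs.wordProd ω) * y) := ⟨_, rfl⟩
        rw [← hr] at h2 h3
        have h4 : ι (cs.wordProd ((tau cs ι T rep ω y).map Subtype.val)) =
            r⁻¹ * (ι (cs.wordProd ω) * rep y) := by
          rw [h2]; group
        have h5 : ι (cs.simple t.1) = r⁻¹ * (ι (cs.simple s) * r) := by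
          rw [h3]; group
        rw [h4, h5]
        group
      rw [h1]
      exact List.Sublist.cons_cons _ ih
    · rw [step_none hs, List.nil_append, CoxeterSystem.rightInvSeq, List.map_cons]
      exact List.Sublist.cons _ ih

theorem tau_reduced (hι : Function.Injective ι) (h : Rep cs ι T rep) {ω : List B}
    (hω : cs.IsReduced ω) (y : E) :
    cs.IsReduced ((tau cs ι T rep ω y).map Subtype.val) := by
  apply reduced_of_ris
  have h1 := (List.Nodup.map hι hω.nodup_rightInvSeq).sublist (tau_ris h ω y)
  exact List.Nodup.of_map _ h1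

/-- two reduced words over `T` for the same element are equal in the Artin group of `T` -/
theorem artin_eq [Finite T] {ω ω' : List T} (h : cs.IsReduced (ω.map Subtype.val))
    (h' : cs.IsReduced (ω'.map Subtype.val))
    (heq : cs.wordProd (ω.map Subtype.val) = cs.wordProd (ω'.map Subtype.val)) :
    (ω.map (Artin.gen (subM M T))).prod = (ω'.map (Artin.gen (subM M T))).prod := by
  classical
  have : Fintype T := Fintype.ofFinite T
  have hinj := Pool.Agent.N77.CX.cmap_injective (subM M T).toCoxeterSystem cs Subtype.val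
    (fun _ _ => rfl) Subtype.val_injective
  have hw : ∀ ω : List T, Pool.Agent.N77.CX.cmap (subM M T).toCoxeterSystem cs Subtype.val
      (fun _ _ => rfl) ((subM M T).toCoxeterSystem.wordProd ω) =
      cs.wordProd (ω.map Subtype.val) := by
    intro ω
    induction ω with
    | nil => simp
    | cons t ω ih =>
      rw [CoxeterSystem.wordProd_cons, map_mul, ih, Pool.Agent.N77.CX.cmap_simple, List.map_cons,
        CoxeterSystem.wordProd_cons]
  have hred : ∀ ω : List T, cs.IsReduced (ω.map Subtype.val) →
      (subM M T).toCoxeterSystem.IsReduced ω := by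
    intro ω hω
    obtain ⟨ω', h1, h2⟩ := (subM M T).toCoxeterSystem.exists_isReduced
      ((subM M T).toCoxeterSystem.wordProd ω)
    have h3 : cs.wordProd (ω.map Subtype.val) = cs.wordProd (ω'.map Subtype.val) := by
      rw [← hw, ← hw, ← h2]
    have h4 := cs.length_wordProd_le (ω'.map Subtype.val)
    rw [← h3, hω.eq, List.length_map, List.length_map] at h4
    have h5 := (subM M T).toCoxeterSystem.length_wordProd_le ω
    have h6 := h1.eq
    rw [← h2] at h6
    unfold CoxeterSystem.IsReduced
    omega
  refine matsumoto (subM M T).toCoxeterSystem (Artin.gen (subM M T)) (fun i j => Artin.rel i j)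
    ω ω' (hred _ h) (hred _ h') (hinj ?_)
  rw [hw, hw, heq]

/-- the image of a generator -/
noncomputable def rgen [Finite T] (cs : CoxeterSystem M W) (ι : W →* E) (rep : E → E) (s : B) :
    FW E (Artin (subM M T)) E :=
  ⟨(⟨fun y => ((step cs ι T rep s y).map (Artin.gen (subM M T))).prod,
    MulAction.toPerm (ι (cs.simple s))⟩, ι (cs.simple s)), rfl, by
    refine ((Set.finite_singleton (1 : Artin (subM M T))).union
      (Set.finite_range (Artin.gen (subM M T)))).subset ?_
    rintro _ ⟨y, rfl⟩
    by_cases hs : St cs ι T rep s y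
    · obtain ⟨t, ht, -⟩ := step_some hs
      right
      refine ⟨t, ?_⟩
      simp [ht]
    · left
      simp [step_none hs]⟩

theorem rgen_prod [Finite T] (ω : List B) :
    (∀ y, ((ω.map (rgen cs ι rep (T := T))).prod).1.1.s y =
      ((tau cs ι T rep ω y).map (Artin.gen (subM M T))).prod) ∧
    ((ω.map (rgen cs ι rep (T := T))).prod).1.2 = ι (cs.wordProd ω) := by
  induction ω with
  | nil =>
    refine ⟨fun y => ?_, ?_⟩
    · rw [tau_nil]; rfl
    · rw [cs.wordProd_nil, map_one]; rfl
  | cons s ω ih =>
    obtain ⟨h1, h2⟩ := ih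
    rw [List.map_cons, List.prod_cons]
    refine ⟨fun y => ?_, ?_⟩
    · have h3 : ((rgen cs ι rep s (T := T)) * (ω.map (rgen cs ι rep (T := T))).prod).1.1.s y =
        (rgen cs ι rep s (T := T)).1.1.s (((ω.map (rgen cs ι rep (T := T))).prod).1.1.p y) *
          ((ω.map (rgen cs ι rep (T := T))).prod).1.1.s y := rfl
      rw [h3, h1, tau_cons, List.map_append, List.prod_append,
        ((ω.map (rgen cs ι rep (T := T))).prod).2.1, h2]
      rfl
    · have h3 : ((rgen cs ι rep s (T := T)) * (ω.map (rgen cs ι rep (T := T))).prod).1.2 =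
        ι (cs.simple s) * ((ω.map (rgen cs ι rep (T := T))).prod).1.2 := rfl
      rw [h3, h2, cs.wordProd_cons, map_mul]

theorem fw_ext {X H Q : Type} [Group H] [Group Q] [MulAction Q X] {a b : FW X H Q}
    (h : ∀ x, a.1.1.s x = b.1.1.s x) (h' : a.1.2 = b.1.2) : a = b := by
  apply Subtype.ext
  apply Prod.ext
  · apply Wr.ext
    · funext x
      exact h x
    · rw [a.2.1, b.2.1, h']
  · exact h'

theorem rgen_rel [Finite T] (hι : Function.Injective ι) (h : Rep cs ι T rep) (i j : B) :
    alt (rgen cs ι rep i (T := T)) (rgen cs ι rep j (T := T)) (M i j) =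
      alt (rgen cs ι rep j (T := T)) (rgen cs ι rep i (T := T)) (M i j) := by
  by_cases hij : i = j
  · rw [hij]
  rw [← aw_prod, ← aw_prod]
  have hr1 : cs.IsReduced (aw i j (M i j)) := isReduced_aw cs hij (Or.inr le_rfl)
  have hr2 : cs.IsReduced (aw j i (M i j)) := isReduced_aw cs (Ne.symm hij) (by
    rw [M.symmetric j i]; exact Or.inr le_rfl)
  have hw : cs.wordProd (aw i j (M i j)) = cs.wordProd (aw j i (M i j)) := by
    rw [CoxeterSystem.wordProd, CoxeterSystem.wordProd, aw_prod, aw_prod]
    exact alt_comm_of_pow (cs.simple_mul_simple_self i) (cs.simple_mul_simple_self j)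
      (cs.simple_mul_simple_pow i j)
  apply fw_ext
  · intro y
    rw [(rgen_prod _).1 y, (rgen_prod _).1 y]
    apply artin_eq (tau_reduced hι h hr1 y) (tau_reduced hι h hr2 y)
    apply hι
    have h1 := tau_prod h (aw i j (M i j)) y
    have h2 := tau_prod h (aw j i (M i j)) y
    rw [← hw] at h2
    rw [h1] at h2
    exact mul_left_cancel h2
  · rw [(rgen_prod _).2, (rgen_prod _).2, hw]

/-- **the homomorphism** -/
noncomputable def rho [Finite T] (hι : Function.Injective ι) (h : Rep cs ι T rep) :
    Artin M →* FW E (Artin (subM M T)) E :=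
  Artin.lift (rgen cs ι rep) (rgen_rel hι h)

theorem rho_gen [Finite T] (hι : Function.Injective ι) (h : Rep cs ι T rep) (s : B) :
    rho hι h (Artin.gen M s) = rgen cs ι rep s := Artin.lift_gen _ _ s

theorem rho_base [Finite T] (hι : Function.Injective ι) (h : Rep cs ι T rep)
    (h1 : ∀ v ∈ WT cs T, rep (ι v) = 1) (x : Artin (subM M T)) :
    (∃ v ∈ WT cs T, (rho hι h (incl M T x)).1.2 = ι v) ∧
    ∀ v ∈ WT cs T, (rho hι h (incl M T x)).1.1.s (ι v) = x := by
  induction x using Artin.induction with
  | one =>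
    rw [map_one, map_one]
    exact ⟨⟨1, one_mem _, (map_one ι).symm⟩, fun _ _ => rfl⟩
  | gen t =>
    rw [incl_gen, rho_gen]
    refine ⟨⟨cs.simple t.1, Subgroup.subset_closure ⟨t.1, t.2, rfl⟩, rfl⟩, fun v hv => ?_⟩
    have hs : St cs ι T rep t.1 (ι v) := ⟨t, by rw [h1 v hv, mul_one, one_mul]⟩
    obtain ⟨t', ht', h2⟩ := step_some hs
    rw [h1 v hv, mul_one, one_mul] at h2
    have h3 : t = t' := Subtype.ext (simple_injective cs (hι h2))
    show ((step cs ι T rep t.1 (ι v)).map (Artin.gen (subM M T))).prod = _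
    rw [ht', ← h3]
    simp
  | mul x y hx hy =>
    obtain ⟨⟨v, hv, h2⟩, h3⟩ := hx
    obtain ⟨⟨w, hw, h4⟩, h5⟩ := hy
    rw [map_mul, map_mul]
    refine ⟨⟨v * w, mul_mem hv hw, ?_⟩, fun u hu => ?_⟩
    · show (rho hι h (incl M T x)).1.2 * (rho hι h (incl M T y)).1.2 = _
      rw [h2, h4, map_mul]
    · show (rho hι h (incl M T x)).1.1.s ((rho hι h (incl M T y)).1.1.p (ι u)) *
        (rho hι h (incl M T y)).1.1.s (ι u) = _
      rw [h5 u hu, (rho hι h (incl M T y)).2.1, h4]
      show (rho hι h (incl M T x)).1.1.s (ι w * ι u) * y = _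
      rw [← map_mul, h3 _ (mul_mem hw hu)]
  | inv x hx =>
    obtain ⟨⟨v, hv, h2⟩, h3⟩ := hx
    rw [map_inv, map_inv]
    refine ⟨⟨v⁻¹, inv_mem hv, ?_⟩, fun u hu => ?_⟩
    · show ((rho hι h (incl M T x)).1.2)⁻¹ = _
      rw [h2, map_inv]
    · show ((rho hι h (incl M T x)).1.1.s (((rho hι h (incl M T x)).1.1.p)⁻¹ (ι u)))⁻¹ = _
      have h4 : ((rho hι h (incl M T x)).1.1.p)⁻¹ (ι u) = ι (v⁻¹ * u) := by
        rw [Equiv.Perm.inv_eq_iff_eq, (rho hι h (incl M T x)).2.1, h2]
        show ι u = ι v * ι (v⁻¹ * u)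
        rw [← map_mul, mul_inv_cancel_left]
      rw [h4, h3 _ (mul_mem (inv_mem hv) hu)]

theorem rho_inj [Finite T] (hι : Function.Injective ι) (h : Rep cs ι T rep)
    (h1 : ∀ v ∈ WT cs T, rep (ι v) = 1) (x : Artin (subM M T))
    (hx : rho hι h (incl M T x) = 1) : x = 1 := by
  have h2 := (rho_base hι h h1 x).2 1 (one_mem _)
  rw [hx] at h2
  exact h2.symm

end abs

/-! ## the case of a Coxeter group -/

section cox

variable {B W : Type} [Group W] {M : CoxeterMatrix B} (cs : CoxeterSystem M W) (T : Set B)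

theorem rep_cox : Rep cs (MonoidHom.id W) T (mrep cs T) where
  stay := by
    rintro s y ⟨t, h⟩
    exact mrep_stay cs T y t.2 h
  move := by
    intro s y h
    apply mrep_move cs T y
    rintro ⟨t, ht, h1⟩
    exact h ⟨⟨t, ht⟩, h1⟩

/-- the homomorphism for a Coxeter group -/
noncomputable def rhoC [Finite T] : Artin M →* FW W (Artin (subM M T)) W :=
  rho Function.injective_id (rep_cox cs T)

theorem rhoC_inj [Finite T] (x : Artin (subM M T)) (hx : rhoC cs T (incl M T x) = 1) : x = 1 :=
  rho_inj Function.injective_id (rep_cox cs T) (fun _ hv => mrep_one cs T hv) x hx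

theorem incl_injective [Finite T] : Function.Injective (incl M T) := by
  rw [injective_iff_map_eq_one]
  intro x hx
  apply rhoC_inj M.toCoxeterSystem T x
  rw [hx, map_one]

end cox

end Pool.Agent.J6H36.AR
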