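import Pool.Agent.J6H36.AR.Fin
import Pool.Agent.J6H94.AR.FW
import Pool.Agent.J6H61.AR.EP
import Pool.Agent.R942.FJ.Det
import Pool.Agent.N77.CX.Main

/-!
# Semidirect products of Artin groups with groups of diagram automorphisms
-/

set_option autoImplicit false

namespace Pool.Agent.J6H36.AR

open Pool.Agent.R676.Cox (geo ee simple_injective geo_nonneg_iff)
open Pool.Agent.Helper741 (aw alt Artin subM subM_apply incl incl_gen map_alt alt_zero)
open Pool.Agent.Y462.SS (Closed Wr)
open Pool.Agent.Y110.FJ (ClosedE Amg)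
open Pool.Agent.N77.CX (taut taut_simple)

variable {C : ∀ (G : Type) [Group G], Prop}

section act

variable {B Q : Type} [Group Q] [MulAction Q B] {M : CoxeterMatrix B}
  (hM : ∀ (q : Q) (i j : B), M (q • i) (q • j) = M i j)

/-- one automorphism of the Artin group -/
def artE (q : Q) : MulAut (Artin M) :=
  MonoidHom.toMulEquiv (relab (fun b => q • b) (hM q)) (relab (fun b => q⁻¹ • b) (hM q⁻¹))
    (Artin.hom_ext fun i => by
      rw [MonoidHom.comp_apply, relab_gen, relab_gen, inv_smul_smul]
      rfl)
    (Artin.hom_ext fun i => by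
      rw [MonoidHom.comp_apply, relab_gen, relab_gen, smul_inv_smul]
      rfl)

theorem artE_gen (q : Q) (i : B) : artE hM q (Artin.gen M i) = Artin.gen M (q • i) :=
  relab_gen (fun b => q • b) (hM q) i

/-- the action on the Artin group -/
def artAct : Q →* MulAut (Artin M) where
  toFun := artE hM
  map_one' := by
    apply MulEquiv.toMonoidHom_injective
    apply Artin.hom_ext
    intro i
    show artE hM 1 (Artin.gen M i) = Artin.gen M i
    rw [artE_gen, one_smul]
  map_mul' p q := by
    apply MulEquiv.toMonoidHom_injective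
    apply Artin.hom_ext
    intro i
    show artE hM (p * q) (Artin.gen M i) = artE hM p (artE hM q (Artin.gen M i))
    rw [artE_gen, artE_gen, artE_gen, mul_smul]

theorem artAct_gen (q : Q) (i : B) : artAct hM q (Artin.gen M i) = Artin.gen M (q • i) :=
  artE_gen hM q i

/-- one automorphism of the Coxeter group -/
noncomputable def coxE (q : Q) : MulAut M.Group := taut (MulAction.toPerm q) (hM q)

theorem coxE_simple (q : Q) (i : B) :
    coxE hM q (M.toCoxeterSystem.simple i) = M.toCoxeterSystem.simple (q • i) :=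
  taut_simple _ _ i

/-- the action on the Coxeter group -/
noncomputable def coxAct : Q →* MulAut M.Group where
  toFun := coxE hM
  map_one' := by
    apply MulEquiv.toMonoidHom_injective
    apply M.toCoxeterSystem.ext_simple
    intro i
    show coxE hM 1 (M.toCoxeterSystem.simple i) = M.toCoxeterSystem.simple i
    rw [coxE_simple, one_smul]
  map_mul' p q := by
    apply MulEquiv.toMonoidHom_injective
    apply M.toCoxeterSystem.ext_simple
    intro i
    show coxE hM (p * q) (M.toCoxeterSystem.simple i) =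
      coxE hM p (coxE hM q (M.toCoxeterSystem.simple i))
    rw [coxE_simple, coxE_simple, coxE_simple, mul_smul]

theorem coxAct_simple (q : Q) (i : B) :
    coxAct hM q (M.toCoxeterSystem.simple i) = M.toCoxeterSystem.simple (q • i) :=
  coxE_simple hM q i

theorem coxAct_word (q : Q) (ω : List B) : coxAct hM q (M.toCoxeterSystem.wordProd ω) =
    M.toCoxeterSystem.wordProd (ω.map (fun b => q • b)) := by
  induction ω with
  | nil => simp
  | cons i ω ih =>
    rw [List.map_cons, CoxeterSystem.wordProd_cons, CoxeterSystem.wordProd_cons, map_mul, ih,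
      coxAct_simple]

theorem coxAct_len_le (q : Q) (w : M.Group) :
    M.toCoxeterSystem.length (coxAct hM q w) ≤ M.toCoxeterSystem.length w := by
  obtain ⟨ω, h1, h2⟩ := M.toCoxeterSystem.exists_isReduced w
  rw [h2, coxAct_word]
  refine (M.toCoxeterSystem.length_wordProd_le _).trans ?_
  rw [List.length_map, ← h1.eq]

theorem coxAct_len (q : Q) (w : M.Group) :
    M.toCoxeterSystem.length (coxAct hM q w) = M.toCoxeterSystem.length w := by
  refine le_antisymm (coxAct_len_le hM q w) ?_
  have h := coxAct_len_le hM q⁻¹ (coxAct hM q w)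
  rwa [← MulAut.mul_apply, ← map_mul, inv_mul_cancel, map_one, MulAut.one_apply] at h

/-- the extended Coxeter group -/
abbrev EC : Type := M.Group ⋊[coxAct hM] Q

/-- the inclusion of the Coxeter group -/
noncomputable abbrev ic : M.Group →* EC hM := SemidirectProduct.inl

variable (T : Set B)

/-- the translate -/
def tr (q : Q) : Set B := (fun b => q • b) '' T

/-- the minimal representatives -/
noncomputable def repE (y : EC hM) : EC hM :=
  ⟨mrep M.toCoxeterSystem (tr T y.right) y.left, y.right⟩

theorem ic_mul (w : M.Group) (y : EC hM) : ic hM w * y = ⟨w * y.left, y.right⟩ := by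
  apply SemidirectProduct.ext
  · show w * coxAct hM 1 y.left = _
    rw [map_one]; rfl
  · show 1 * y.right = _
    rw [one_mul]

theorem mul_ic (w : M.Group) (y : EC hM) : y * ic hM w = ⟨y.left * coxAct hM y.right w, y.right⟩ := by
  apply SemidirectProduct.ext
  · rfl
  · show y.right * 1 = _
    rw [mul_one]

theorem st_iff (s : B) (y : EC hM) : St M.toCoxeterSystem (ic hM) T (repE hM T) s y ↔
    ∃ u ∈ tr T y.right, M.toCoxeterSystem.simple s * mrep M.toCoxeterSystem (tr T y.right) y.left =
      mrep M.toCoxeterSystem (tr T y.right) y.left * M.toCoxeterSystem.simple u := by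
  constructor
  · rintro ⟨t, ht⟩
    rw [ic_mul, mul_ic] at ht
    refine ⟨y.right • t.1, ⟨t.1, t.2, rfl⟩, ?_⟩
    rw [← coxAct_simple hM]
    exact congrArg SemidirectProduct.left ht
  · rintro ⟨_, ⟨t, ht, rfl⟩, h⟩
    refine ⟨⟨t, ht⟩, ?_⟩
    rw [ic_mul, mul_ic]
    apply SemidirectProduct.ext
    · show _ * mrep _ _ _ = mrep _ _ _ * coxAct hM y.right _
      rw [coxAct_simple]
      exact h
    · rfl

theorem rep_E : Rep M.toCoxeterSystem (ic hM) T (repE hM T) where
  stay := by
    intro s y h
    rw [st_iff] at h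
    obtain ⟨u, hu, h⟩ := h
    rw [ic_mul]
    apply SemidirectProduct.ext
    · exact mrep_stay M.toCoxeterSystem _ y.left hu h
    · rfl
  move := by
    intro s y h
    rw [st_iff] at h
    rw [ic_mul, ic_mul]
    apply SemidirectProduct.ext
    · exact mrep_move M.toCoxeterSystem _ y.left h
    · rfl

theorem mrep_tr (q r : Q) (w : M.Group) : mrep M.toCoxeterSystem (tr T (q * r)) (coxAct hM q w) =
    coxAct hM q (mrep M.toCoxeterSystem (tr T r) w) := by
  apply mrep_eq
  · rintro _ ⟨t, ht, rfl⟩
    have h1 := mrep_min M.toCoxeterSystem (tr T r) w (r • t) ⟨t, ht, rfl⟩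
    rw [geo_nonneg_iff] at h1 ⊢
    show _ < M.toCoxeterSystem.length (_ * M.toCoxeterSystem.simple ((q * r) • t))
    rw [mul_smul, ← coxAct_simple hM, ← map_mul, coxAct_len, coxAct_len]
    exact h1
  · rw [← map_inv, ← map_mul]
    have h1 := mrep_mem M.toCoxeterSystem (tr T r) w
    have h2 : WT M.toCoxeterSystem (tr T r) ≤
        (WT M.toCoxeterSystem (tr T (q * r))).comap (coxAct hM q).toMonoidHom := by
      rw [WT, Subgroup.closure_le]
      rintro _ ⟨_, ⟨t, ht, rfl⟩, rfl⟩
      show coxAct hM q (M.toCoxeterSystem.simple (r • t)) ∈ WT M.toCoxeterSystem (tr T (q * r))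
      rw [coxAct_simple]
      exact Subgroup.subset_closure ⟨(q * r) • t, ⟨t, ht, rfl⟩, by rw [mul_smul]⟩
    exact h2 h1

theorem repE_inr (q : Q) (y : EC hM) : repE hM T (SemidirectProduct.inr q * y) =
    SemidirectProduct.inr q * repE hM T y := by
  apply SemidirectProduct.ext
  · show mrep _ (tr T (q * y.right)) (1 * coxAct hM q y.left) = 1 * coxAct hM q _
    rw [one_mul, one_mul]
    exact mrep_tr hM T q y.right y.left
  · rfl

theorem ic_simple_smul (q : Q) (s : B) : ic hM (M.toCoxeterSystem.simple (q • s)) =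
    SemidirectProduct.inr q * ic hM (M.toCoxeterSystem.simple s) * (SemidirectProduct.inr q)⁻¹ := by
  rw [← coxAct_simple hM, ← map_inv]
  exact SemidirectProduct.inl_aut q _

theorem st_smul (q : Q) (s : B) (y : EC hM) (t : T) :
    (ic hM (M.toCoxeterSystem.simple (q • s)) * repE hM T (SemidirectProduct.inr q * y) =
      repE hM T (SemidirectProduct.inr q * y) * ic hM (M.toCoxeterSystem.simple t.1)) ↔
    (ic hM (M.toCoxeterSystem.simple s) * repE hM T y =
      repE hM T y * ic hM (M.toCoxeterSystem.simple t.1)) := by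
  rw [repE_inr, ic_simple_smul]
  have h1 : SemidirectProduct.inr q * ic hM (M.toCoxeterSystem.simple s) *
      (SemidirectProduct.inr q)⁻¹ * (SemidirectProduct.inr q * repE hM T y) =
      SemidirectProduct.inr q * (ic hM (M.toCoxeterSystem.simple s) * repE hM T y) := by group
  rw [h1, mul_assoc]
  exact mul_right_inj _

theorem step_smul (q : Q) (s : B) (y : EC hM) :
    step M.toCoxeterSystem (ic hM) T (repE hM T) (q • s) (SemidirectProduct.inr q * y) =
      step M.toCoxeterSystem (ic hM) T (repE hM T) s y := by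
  by_cases h : St M.toCoxeterSystem (ic hM) T (repE hM T) s y
  · have h' : St M.toCoxeterSystem (ic hM) T (repE hM T) (q • s) (SemidirectProduct.inr q * y) := by
      obtain ⟨t, ht⟩ := h
      exact ⟨t, (st_smul hM T q s y t).2 ht⟩
    obtain ⟨t, h1, h2⟩ := step_some h
    obtain ⟨t', h1', h2'⟩ := step_some h'
    rw [h1, h1']
    rw [st_smul hM T q s y t', h2] at h2'
    have h3 := mul_left_cancel h2'
    have h4 := simple_injective M.toCoxeterSystem (SemidirectProduct.inl_injective h3)
    rw [Subtype.ext h4]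
  · have h' : ¬ St M.toCoxeterSystem (ic hM) T (repE hM T) (q • s) (SemidirectProduct.inr q * y) := by
      rintro ⟨t, ht⟩
      exact h ⟨t, (st_smul hM T q s y t).1 ht⟩
    rw [step_none h, step_none h']

variable [Finite T]

/-- the homomorphism on `Q` -/
noncomputable def rhoQ : Q →* FW (EC hM) (Artin (subM M T)) (EC hM) where
  toFun q := ⟨(⟨fun _ => 1, MulAction.toPerm (SemidirectProduct.inr q : EC hM)⟩,
    SemidirectProduct.inr q), rfl, by
      refine (Set.finite_singleton (1 : Artin (subM M T))).subset ?_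
      rintro _ ⟨y, rfl⟩
      rfl⟩
  map_one' := by
    apply fw_ext
    · intro x; rfl
    · exact map_one _
  map_mul' p q := by
    apply fw_ext
    · intro x
      show (1 : Artin (subM M T)) = 1 * 1
      rw [one_mul]
    · exact map_mul _ _ _

/-- the homomorphism on the Artin group -/
noncomputable def rhoA : Artin M →* FW (EC hM) (Artin (subM M T)) (EC hM) :=
  rho SemidirectProduct.inl_injective (rep_E hM T)

theorem rhoA_gen (s : B) : rhoA hM T (Artin.gen M s) =
    rgen M.toCoxeterSystem (ic hM) (repE hM T) s := rho_gen _ _ s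

/-- the homomorphism on the semidirect product -/
noncomputable def rhoE : Artin M ⋊[artAct hM] Q →* FW (EC hM) (Artin (subM M T)) (EC hM) :=
  SemidirectProduct.lift (rhoA hM T) (rhoQ hM T) (by
    intro q
    apply Artin.hom_ext
    intro s
    show rhoA hM T (artAct hM q (Artin.gen M s)) =
      rhoQ hM T q * rhoA hM T (Artin.gen M s) * (rhoQ hM T q)⁻¹
    rw [artAct_gen, rhoA_gen, rhoA_gen]
    apply fw_ext
    · intro y
      obtain ⟨z, rfl⟩ : ∃ z, y = SemidirectProduct.inr q * z :=
        ⟨(SemidirectProduct.inr q)⁻¹ * y, by rw [mul_inv_cancel_left]⟩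
      show ((step _ _ _ _ (q • s) (SemidirectProduct.inr q * z)).map _).prod =
        1 * ((step _ _ _ _ s ((rhoQ hM T q).1.1.p⁻¹ (SemidirectProduct.inr q * z))).map _).prod *
          (1 : Artin (subM M T))⁻¹
      have h1 : (rhoQ hM T q).1.1.p⁻¹ (SemidirectProduct.inr q * z) = z := by
        rw [Equiv.Perm.inv_eq_iff_eq]
        rfl
      rw [h1, step_smul, one_mul, inv_one, mul_one]
    · exact ic_simple_smul hM q s)

theorem rhoE_inj (x : Artin (subM M T))
    (hx : rhoE hM T (SemidirectProduct.inl (incl M T x)) = 1) : x = 1 := by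
  rw [rhoE, SemidirectProduct.lift_inl] at hx
  refine rho_inj SemidirectProduct.inl_injective (rep_E hM T) ?_ x hx
  intro v hv
  apply SemidirectProduct.ext
  · show mrep M.toCoxeterSystem (tr T 1) v = 1
    apply mrep_one
    have : tr T (1 : Q) = T := by
      rw [tr]
      simp
    rw [this]
    exact hv
  · rfl

end act

section main

variable {B Q : Type} [Group Q] [MulAction Q B] {M : CoxeterMatrix B}
  (hM : ∀ (q : Q) (i j : B), M (q • i) (q • j) = M i j)

theorem C_EC (hC : ClosedE C) (hcox : ∀ (S : Type) (_ : Finite S) (A : CoxeterMatrix S), C A.Group)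
    (hQ : C Q) : C (EC hM) := by
  let e : M.Group ≃* (SemidirectProduct.rightHom : EC hM →* Q).ker :=
    (MonoidHom.ofInjective (f := ic hM) SemidirectProduct.inl_injective).trans
      (MulEquiv.subgroupCongr SemidirectProduct.range_inl_eq_ker_rightHom)
  have he : ∀ w, ((e w : (SemidirectProduct.rightHom : EC hM →* Q).ker) : EC hM) = ic hM w :=
    fun w => rfl
  let Q' : Subgroup (EC hM) := (SemidirectProduct.inr : Q →* EC hM).range
  let _ : MulAction Q' B := MulAction.compHom B
    ((SemidirectProduct.rightHom : EC hM →* Q).comp Q'.subtype)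
  refine Pool.Agent.N77.CX.cox_main (M.toCoxeterSystem.map e) hC hcox Q' ?_ ?_ ?_ ?_
  · rw [eq_top_iff]
    intro x _
    rw [← SemidirectProduct.inl_left_mul_inr_right x]
    refine mul_mem (Subgroup.mem_sup_left ?_) (Subgroup.mem_sup_right ⟨_, rfl⟩)
    rw [MonoidHom.mem_ker, SemidirectProduct.rightHom_inl]
  · intro m b b'
    exact hM _ b b'
  · rintro ⟨_, q, rfl⟩ b
    show SemidirectProduct.inr q * ((e (M.toCoxeterSystem.simple b) : _) : EC hM) *
      (SemidirectProduct.inr q)⁻¹ = ((e (M.toCoxeterSystem.simple _) : _) : EC hM)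
    rw [he, he, ← ic_simple_smul]
    rfl
  · exact Pool.Agent.Y812.SS.C_equiv hC.base (QuotientGroup.quotientKerEquivOfSurjective _
      SemidirectProduct.rightHom_surjective) hQ

theorem range_incl (M : CoxeterMatrix B) (S : Set B) :
    (incl M S).range = Subgroup.closure (Artin.gen M '' S) := by
  apply le_antisymm
  · rintro _ ⟨x, rfl⟩
    induction x using Artin.induction with
    | one => rw [map_one]; exact one_mem _
    | gen t => rw [incl_gen]; exact Subgroup.subset_closure ⟨t.1, t.2, rfl⟩
    | mul x y hx hy => rw [map_mul]; exact mul_mem hx hy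
    | inv x hx => rw [map_inv]; exact inv_mem hx
  · rw [Subgroup.closure_le]
    rintro _ ⟨u, hu, rfl⟩
    exact ⟨Artin.gen _ ⟨u, hu⟩, incl_gen _ _ _⟩

theorem ex_supp (x : Artin M) : ∃ S : Set B, S.Finite ∧ x ∈ (incl M S).range := by
  induction x using Artin.induction with
  | one => exact ⟨∅, Set.finite_empty, one_mem _⟩
  | gen t => exact ⟨{t}, Set.finite_singleton t, by
      rw [range_incl]; exact Subgroup.subset_closure ⟨t, rfl, rfl⟩⟩
  | mul x y hx hy =>
    obtain ⟨S, hS, h1⟩ := hx
    obtain ⟨S', hS', h2⟩ := hy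
    rw [range_incl] at h1 h2
    refine ⟨S ∪ S', hS.union hS', ?_⟩
    rw [range_incl]
    exact mul_mem (Subgroup.closure_mono (Set.image_mono Set.subset_union_left) h1)
      (Subgroup.closure_mono (Set.image_mono Set.subset_union_right) h2)
  | inv x hx =>
    obtain ⟨S, hS, h1⟩ := hx
    exact ⟨S, hS, inv_mem h1⟩

theorem ex_supp_fin {E : Set (Artin M)} (hE : E.Finite) :
    ∃ S : Set B, S.Finite ∧ E ⊆ (incl M S).range := by
  induction E, hE using Set.Finite.induction_on with
  | empty => exact ⟨∅, Set.finite_empty, Set.empty_subset _⟩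
  | @insert a s _ _ ih =>
    obtain ⟨S, hS, h1⟩ := ih
    obtain ⟨S', hS', h2⟩ := ex_supp a
    refine ⟨S ∪ S', hS.union hS', ?_⟩
    rw [range_incl] at h1 h2 ⊢
    rintro x (rfl | hx)
    · exact Subgroup.closure_mono (Set.image_mono Set.subset_union_right) h2
    · exact Subgroup.closure_mono (Set.image_mono Set.subset_union_left) (h1 hx)

theorem t_FW' : S_FW := Pool.Agent.J6H94.AR.t_FW Pool.Agent.J6H61.AR.t_EP

/-- the finite parabolic subgroups -/
theorem C_sub (hC : ClosedE C)
    (hcox : ∀ (S : Type) (_ : Finite S) (A : CoxeterMatrix S), C A.Group)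
    (hK : ∀ K : Set B, K.Finite → (∀ i ∈ K, ∀ j ∈ K, M i j ≠ 0) → C (Artin (subM M K)))
    (S : Set B) (hS : S.Finite) : C (Artin (subM M S)) := by
  have : Finite S := hS
  refine fin_main hC t_FW' hcox _ S inferInstance _ rfl ?_
  intro K hKK
  refine C_relab hC.base (Equiv.Set.image Subtype.val K Subtype.val_injective)
    (M' := subM M (Subtype.val '' K)) (fun i j => rfl)
    (hK _ (hS.subset (Subtype.coe_image_subset S K)) ?_)
  rintro _ ⟨i, hi, rfl⟩ _ ⟨j, hj, rfl⟩
  exact hKK i hi j hj

/-- **semidirect products of Artin groups with groups of diagram automorphisms** -/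
theorem semi_main (hC : ClosedE C)
    (hcox : ∀ (S : Type) (_ : Finite S) (A : CoxeterMatrix S), C A.Group) (hQ : C Q)
    (hK : ∀ K : Set B, K.Finite → (∀ i ∈ K, ∀ j ∈ K, M i j ≠ 0) → C (Artin (subM M K))) :
    C (Artin M ⋊[artAct hM] Q) := by
  refine Pool.Agent.R942.FJ.main_detected hC
    (SemidirectProduct.rightHom : Artin M ⋊[artAct hM] Q →* Q).ker (fun g => ?_)
    (Pool.Agent.Y812.SS.C_equiv hC.base (QuotientGroup.quotientKerEquivOfSurjective _
      SemidirectProduct.rightHom_surjective) hQ)
  intro E hE hEN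
  obtain ⟨S, hS, hES⟩ := ex_supp_fin (M := M) (hE.image (fun x => x.left))
  have : Finite S := hS
  obtain ⟨R, hR⟩ : ∃ R : Subgroup (Artin M ⋊[artAct hM] Q),
    R = (incl M S).range.map SemidirectProduct.inl := ⟨_, rfl⟩
  have hES' : E ⊆ R := by
    intro x hx
    rw [hR]
    refine ⟨x.left, hES ⟨x, hx, rfl⟩, ?_⟩
    have h1 : x.right = 1 := hEN hx
    apply SemidirectProduct.ext
    · rfl
    · exact h1.symm
  refine ⟨FW (EC hM) (Artin (subM M S)) (EC hM), inferInstance,
    (rhoE hM S).comp (Subgroup.subtype _),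
    t_FW' C hC _ _ _ (C_sub hC hcox hK S hS) (C_EC hM hC hcox hQ), ?_⟩
  intro x hx h1
  have h2 : (x : Artin M ⋊[artAct hM] Q) ∈ R := (Subgroup.closure_le _).2 hES' hx
  rw [hR] at h2
  obtain ⟨_, ⟨y, rfl⟩, hy⟩ := h2
  have h3 : rhoE hM S (SemidirectProduct.inl (incl M S y)) = 1 := by
    rw [hy]; exact h1
  have h4 := rhoE_inj hM S y h3
  apply Subtype.ext
  rw [← hy, h4, map_one, map_one]
  rfl

/-- **Artin groups of arbitrary rank** -/
theorem art_main (hC : ClosedE C)
    (hcox : ∀ (S : Type) (_ : Finite S) (A : CoxeterMatrix S), C A.Group)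
    (B : Type) (M : CoxeterMatrix B) : C (Artin M) ↔
      ∀ K : Set B, K.Finite → (∀ i ∈ K, ∀ j ∈ K, M i j ≠ 0) → C (Artin (subM M K)) := by
  constructor
  · intro h K hK _
    have : Finite K := hK
    exact hC.base.of_injective _ _ (incl M K) (incl_injective K) h
  · intro h
    let _ : MulAction Unit B :=
      { smul := fun _ b => b
        one_smul := fun _ => rfl
        mul_smul := fun _ _ _ => rfl }
    exact hC.base.of_injective _ _ SemidirectProduct.inl SemidirectProduct.inl_injective
      (semi_main (Q := Unit) (M := M) (fun _ _ _ => rfl) hC hcox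
        (Pool.Agent.Y812.SS.C_subsingleton hC.base Unit) h)

end main

end Pool.Agent.J6H36.AR
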