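import Pool.Agent.J6H36.AR.Irr
import Pool.Agent.J6H36.AR.Defs2

/-!
# Virtual Artin groups
-/

set_option autoImplicit false

namespace Pool.Agent.J6H36.AR

open CoxeterSystem
open Pool.Agent.R676.Cox
open Pool.Agent.Helper741 (aw alt Artin subM subM_apply incl incl_gen map_alt alt_zero qs cc qs_sin
  sin_pos_of_ne alt_mul_two)
open Pool.Agent.Y462.SS (Closed Wr)
open Pool.Agent.Y110.FJ (ClosedE)

variable {C : ∀ (G : Type) [Group G], Prop}

/-- the relations of the virtual Artin group; the generators are `σ i = of (inl i)` and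
`τ i = of (inr i)` -/
def vrel {B : Type} (M : CoxeterMatrix B) : Set (FreeGroup (B ⊕ B)) :=
  {x | (∃ i j, x = alt (FreeGroup.of (Sum.inl i)) (FreeGroup.of (Sum.inl j)) (M i j) *
      (alt (FreeGroup.of (Sum.inl j)) (FreeGroup.of (Sum.inl i)) (M i j))⁻¹) ∨
    (∃ i j, x = (FreeGroup.of (Sum.inr i) * FreeGroup.of (Sum.inr j)) ^ (M i j)) ∨
    (∃ i j, i ≠ j ∧ M i j ≠ 0 ∧
      x = ((alternatingWord i j (M i j - 1)).map (fun k => FreeGroup.of (Sum.inr k))).prod *
        FreeGroup.of (Sum.inl i) *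
        (((alternatingWord i j (M i j - 1)).map (fun k => FreeGroup.of (Sum.inr k))).prod)⁻¹ *
        (FreeGroup.of (Sum.inl (if Even (M i j) then i else j)))⁻¹)}

/-- **the virtual Artin group** of a Coxeter matrix -/
abbrev VA {B : Type} (M : CoxeterMatrix B) : Type := PresentedGroup (vrel M)

section mat

variable {B W : Type} [Group W] {M : CoxeterMatrix B} (cs : CoxeterSystem M W) (hL : S_LAB)
include hL

omit hL in
theorem lab_zero (β γ : Phi cs) (h : ¬ ∃ p : W × B × B, β.1 = geo cs p.1 (ee p.2.1) ∧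
    γ.1 = geo cs p.1 (ee p.2.2)) : lab cs β γ = 0 := dif_neg h

theorem lab_symm (β γ : Phi cs) : lab cs β γ = lab cs γ β := by
  by_cases h : ∃ p : W × B × B, β.1 = geo cs p.1 (ee p.2.1) ∧ γ.1 = geo cs p.1 (ee p.2.2)
  · obtain ⟨⟨w, i, j⟩, h1, h2⟩ := h
    rw [hL B W M cs β γ w i j h1 h2, hL B W M cs γ β w j i h2 h1, M.symmetric]
  · have h' : ¬ ∃ p : W × B × B, γ.1 = geo cs p.1 (ee p.2.1) ∧ β.1 = geo cs p.1 (ee p.2.2) := by
      rintro ⟨⟨w, i, j⟩, h1, h2⟩
      exact h ⟨⟨w, j, i⟩, h2, h1⟩
    rw [lab, dif_neg h, lab, dif_neg h']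

/-- the Coxeter matrix on the roots -/
noncomputable def hatM : CoxeterMatrix (Phi cs) where
  M := Matrix.of (lab cs)
  isSymm := by
    ext β γ
    exact lab_symm cs hL γ β
  diagonal β := by
    obtain ⟨w, i, h⟩ := β.2
    show lab cs β β = 1
    rw [hL B W M cs β β w i i h h, M.diagonal]
  off_diagonal β γ hne := by
    show lab cs β γ ≠ 1
    by_cases h : ∃ p : W × B × B, β.1 = geo cs p.1 (ee p.2.1) ∧ γ.1 = geo cs p.1 (ee p.2.2)
    · obtain ⟨⟨w, i, j⟩, h1, h2⟩ := h
      rw [hL B W M cs β γ w i j h1 h2]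
      apply M.off_diagonal
      rintro rfl
      exact hne (Subtype.ext (h1.trans h2.symm))
    · rw [lab, dif_neg h]
      exact zero_ne_one

theorem hatM_apply (β γ : Phi cs) : hatM cs hL β γ = lab cs β γ := rfl

theorem hatM_smul (u : W) (β γ : Phi cs) : hatM cs hL (u • β) (u • γ) = hatM cs hL β γ := by
  rw [hatM_apply, hatM_apply]
  by_cases h : ∃ p : W × B × B, β.1 = geo cs p.1 (ee p.2.1) ∧ γ.1 = geo cs p.1 (ee p.2.2)
  · obtain ⟨⟨w, i, j⟩, h1, h2⟩ := h
    rw [hL B W M cs β γ w i j h1 h2, hL B W M cs (u • β) (u • γ) (u * w) i j]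
    · show geo cs u β.1 = _
      rw [h1, map_mul, Module.End.mul_apply]
    · show geo cs u γ.1 = _
      rw [h2, map_mul, Module.End.mul_apply]
  · have h' : ¬ ∃ p : W × B × B, (u • β).1 = geo cs p.1 (ee p.2.1) ∧
        (u • γ).1 = geo cs p.1 (ee p.2.2) := by
      rintro ⟨⟨w, i, j⟩, h1, h2⟩
      refine h ⟨⟨u⁻¹ * w, i, j⟩, ?_, ?_⟩
      · have h3 : geo cs u β.1 = geo cs w (ee i) := h1
        show β.1 = geo cs (u⁻¹ * w) (ee i)
        rw [map_mul, Module.End.mul_apply, ← h3, geo_inv_apply]
      · have h3 : geo cs u γ.1 = geo cs w (ee j) := h2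
        show γ.1 = geo cs (u⁻¹ * w) (ee j)
        rw [map_mul, Module.End.mul_apply, ← h3, geo_inv_apply]
    exact (lab_zero cs _ _ h').trans (lab_zero cs _ _ h).symm

omit hL in
/-- the simple roots -/
noncomputable def sr (i : B) : Phi cs := ⟨ee i, 1, i, by rw [map_one, Module.End.one_apply]⟩

omit hL in
theorem sr_move {i j : B} (hij : i ≠ j) (hm : M i j ≠ 0) :
    cs.wordProd (alternatingWord i j (M i j - 1)) • sr cs i =
      sr cs (if Even (M i j) then i else j) := by
  apply Subtype.ext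
  show geo cs (cs.wordProd (alternatingWord i j (M i j - 1))) (ee i) = ee _
  rw [geo_wordProd, prod_alt_ee]
  have hpos := sin_pos_of_ne M hij hm
  obtain ⟨m, hm1⟩ : ∃ m, M i j = m + 1 := ⟨M i j - 1, by omega⟩
  have h1 : qs (cc M i j) (m + 1) = 0 := by
    have h2 := qs_sin (Real.pi / (M i j : ℝ)) (m + 1)
    rw [← hm1, mul_div_cancel₀ _ (Nat.cast_ne_zero.2 hm), Real.sin_pi, hm1] at h2
    rw [cc]
    rcases mul_eq_zero.1 h2 with h3 | h3
    · rw [hm1]; exact h3
    · rw [hm1] at hpos
      exact absurd h3 hpos.ne'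
  have h4 : qs (cc M i j) m = 1 := by
    have h2 := qs_sin (Real.pi / (M i j : ℝ)) m
    have h3 : (m : ℝ) * (Real.pi / (M i j : ℝ)) = Real.pi - Real.pi / (M i j : ℝ) := by
      have h5 : ((M i j : ℕ) : ℝ) ≠ 0 := Nat.cast_ne_zero.2 hm
      have h6 : (m : ℝ) = (M i j : ℝ) - 1 := by rw [hm1]; push_cast; ring
      rw [h6]
      field_simp
    rw [h3, Real.sin_pi_sub] at h2
    rw [cc]
    have h5 := mul_right_cancel₀ hpos.ne' (h2.trans (one_mul _).symm)
    exact h5
  have h5 : M i j - 1 = m := by omega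
  rw [h5, h1, h4]
  by_cases he : Even m
  · have h6 : ¬ Even (M i j) := by rw [hm1]; exact Nat.even_add_one.not.2 (not_not.2 he)
    rw [if_pos he, if_neg h6, zero_smul, one_smul, zero_add]
  · have h6 : Even (M i j) := by rw [hm1]; exact Nat.even_add_one.2 he
    rw [if_neg he, if_pos h6, zero_smul, one_smul, zero_add]

end mat

section va

variable {B : Type} (M : CoxeterMatrix B)

/-- the generators -/
def vs (i : B) : VA M := PresentedGroup.of (Sum.inl i)
def vt (i : B) : VA M := PresentedGroup.of (Sum.inr i)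

theorem vs_rel (i j : B) : alt (vs M i) (vs M j) (M i j) = alt (vs M j) (vs M i) (M i j) := by
  have h : PresentedGroup.mk (vrel M) (alt (FreeGroup.of (Sum.inl i)) (FreeGroup.of (Sum.inl j))
      (M i j) * (alt (FreeGroup.of (Sum.inl j)) (FreeGroup.of (Sum.inl i)) (M i j))⁻¹) = 1 :=
    PresentedGroup.one_of_mem (Or.inl ⟨i, j, rfl⟩)
  rw [map_mul, map_inv, mul_inv_eq_one, map_alt, map_alt] at h
  exact h

theorem vt_rel (i j : B) : (vt M i * vt M j) ^ (M i j) = 1 := by
  have h : PresentedGroup.mk (vrel M)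
      ((FreeGroup.of (Sum.inr i) * FreeGroup.of (Sum.inr j)) ^ (M i j)) = 1 :=
    PresentedGroup.one_of_mem (Or.inr (Or.inl ⟨i, j, rfl⟩))
  rw [map_pow, map_mul] at h
  exact h

/-- the Coxeter group maps to the virtual Artin group -/
noncomputable def vT : M.Group →* VA M := M.toCoxeterSystem.lift ⟨vt M, vt_rel M⟩

theorem vT_simple (i : B) : vT M (M.toCoxeterSystem.simple i) = vt M i :=
  M.toCoxeterSystem.lift_apply_simple (vt_rel M) i

theorem vT_word (ω : List B) : vT M (M.toCoxeterSystem.wordProd ω) = (ω.map (vt M)).prod := by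
  induction ω with
  | nil => simp
  | cons i ω ih => rw [CoxeterSystem.wordProd_cons, map_mul, ih, vT_simple, List.map_cons,
      List.prod_cons]

theorem vm_rel (i j : B) (hij : i ≠ j) (hm : M i j ≠ 0) :
    vT M (M.toCoxeterSystem.wordProd (alternatingWord i j (M i j - 1))) * vs M i *
      (vT M (M.toCoxeterSystem.wordProd (alternatingWord i j (M i j - 1))))⁻¹ =
        vs M (if Even (M i j) then i else j) := by
  have h : PresentedGroup.mk (vrel M)
      (((alternatingWord i j (M i j - 1)).map (fun k => FreeGroup.of (Sum.inr k))).prod *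
        FreeGroup.of (Sum.inl i) *
        (((alternatingWord i j (M i j - 1)).map (fun k => FreeGroup.of (Sum.inr k))).prod)⁻¹ *
        (FreeGroup.of (Sum.inl (if Even (M i j) then i else j)))⁻¹) = 1 :=
    PresentedGroup.one_of_mem (Or.inr (Or.inr ⟨i, j, hij, hm, rfl⟩))
  rw [map_mul, map_inv, mul_inv_eq_one, map_mul, map_mul, map_inv, map_list_prod, List.map_map] at h
  rw [vT_word]
  exact h

variable (hL : S_LAB) (hKY : S_KEY)

/-- the semidirect product -/
abbrev SA : Type := Artin (hatM M.toCoxeterSystem hL) ⋊[artAct (hatM_smul M.toCoxeterSystem hL)]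
  M.Group

/-- the map to the semidirect product -/
noncomputable def vTh : VA M →* SA M hL :=
  PresentedGroup.toGroup (f := Sum.elim
    (fun i => (SemidirectProduct.inl (Artin.gen (hatM M.toCoxeterSystem hL)
      (sr M.toCoxeterSystem i)) : SA M hL))
    (fun i => SemidirectProduct.inr (M.toCoxeterSystem.simple i))) (by
    rintro x (⟨i, j, rfl⟩ | ⟨i, j, rfl⟩ | ⟨i, j, hij, hm, rfl⟩)
    · rw [map_mul, map_inv, mul_inv_eq_one, map_alt, map_alt, FreeGroup.lift_apply_of,
        FreeGroup.lift_apply_of, Sum.elim_inl, Sum.elim_inl, ← map_alt, ← map_alt]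
      congr 1
      have h1 : M i j = hatM M.toCoxeterSystem hL (sr M.toCoxeterSystem i)
          (sr M.toCoxeterSystem j) :=
        (hL B _ M M.toCoxeterSystem (sr M.toCoxeterSystem i) (sr M.toCoxeterSystem j) 1 i j
          (by rw [map_one, Module.End.one_apply]; rfl)
          (by rw [map_one, Module.End.one_apply]; rfl)).symm
      rw [h1]
      exact Artin.rel _ _
    · rw [map_pow, map_mul, FreeGroup.lift_apply_of, FreeGroup.lift_apply_of, Sum.elim_inr,
        Sum.elim_inr, ← map_mul, ← map_pow, M.toCoxeterSystem.simple_mul_simple_pow, map_one]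
    · rw [map_mul, map_inv, mul_inv_eq_one, map_mul, map_mul, map_inv, map_list_prod,
        List.map_map, FreeGroup.lift_apply_of, FreeGroup.lift_apply_of, Sum.elim_inl, Sum.elim_inl]
      have h1 : ∀ ω : List B, (ω.map (FreeGroup.lift (Sum.elim
          (fun i => (SemidirectProduct.inl (Artin.gen (hatM M.toCoxeterSystem hL)
            (sr M.toCoxeterSystem i)) : SA M hL))
          (fun i => SemidirectProduct.inr (M.toCoxeterSystem.simple i))) ∘
            fun k => FreeGroup.of (Sum.inr k))).prod =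
          SemidirectProduct.inr (M.toCoxeterSystem.wordProd ω) := by
        intro ω
        induction ω with
        | nil => simp
        | cons k ω ih =>
          rw [List.map_cons, List.prod_cons, ih, CoxeterSystem.wordProd_cons, map_mul,
            Function.comp_apply, FreeGroup.lift_apply_of, Sum.elim_inr]
      rw [h1, ← map_inv, ← SemidirectProduct.inl_aut, artAct_gen, sr_move _ hij hm])

theorem vTh_s (i : B) : vTh M hL (vs M i) = SemidirectProduct.inl
    (Artin.gen (hatM M.toCoxeterSystem hL) (sr M.toCoxeterSystem i)) := by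
  rw [vTh, vs, PresentedGroup.toGroup.of, Sum.elim_inl]

theorem vTh_t (i : B) : vTh M hL (vt M i) = SemidirectProduct.inr (M.toCoxeterSystem.simple i) := by
  rw [vTh, vt, PresentedGroup.toGroup.of, Sum.elim_inr]

/-- the image of the generator of a root -/
noncomputable def vd (β : Phi M.toCoxeterSystem) : VA M :=
  vT M β.2.choose * vs M β.2.choose_spec.choose * (vT M β.2.choose)⁻¹

include hKY in
theorem vd_eq (β : Phi M.toCoxeterSystem) (w : M.Group) (i : B)
    (h : β.1 = geo M.toCoxeterSystem w (ee i)) : vd M β = vT M w * vs M i * (vT M w)⁻¹ := by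
  obtain ⟨u, j, h1, h0⟩ : ∃ (u : M.Group) (j : B), β.1 = geo M.toCoxeterSystem u (ee j) ∧
      vd M β = vT M u * vs M j * (vT M u)⁻¹ := ⟨_, _, β.2.choose_spec.choose_spec, rfl⟩
  rw [h0]
  have h2 : geo M.toCoxeterSystem (w⁻¹ * u) (ee j) = ee i := by
    rw [map_mul, Module.End.mul_apply, ← h1, h, geo_inv_apply]
  have h3 := hKY B M.Group (VA M) M M.toCoxeterSystem (vT M) (vs M)
    (fun s r hsr hm => vm_rel M s r hsr hm) (w⁻¹ * u) j i h2
  rw [← h3, map_mul, map_inv]
  group

/-- the map from the Artin group of the roots -/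
noncomputable def vA : Artin (hatM M.toCoxeterSystem hL) →* VA M :=
  Artin.lift (vd M) (by
    intro β γ
    by_cases h : ∃ p : M.Group × B × B, β.1 = geo M.toCoxeterSystem p.1 (ee p.2.1) ∧
        γ.1 = geo M.toCoxeterSystem p.1 (ee p.2.2)
    · obtain ⟨⟨w, i, j⟩, h1, h2⟩ := h
      rw [vd_eq M hKY β w i h1, vd_eq M hKY γ w j h2, hatM_apply,
        hL B _ M M.toCoxeterSystem β γ w i j h1 h2]
      have h3 : ∀ x, vT M w * x * (vT M w)⁻¹ = (MulAut.conj (vT M w)).toMonoidHom x :=
        fun x => rfl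
      rw [h3, h3, ← map_alt, ← map_alt, vs_rel]
    · rw [hatM_apply, lab, dif_neg h, alt_zero, alt_zero])

theorem vA_gen (β : Phi M.toCoxeterSystem) : vA M hL hKY (Artin.gen _ β) = vd M β :=
  Artin.lift_gen _ _ β

/-- the inverse -/
noncomputable def vPs : SA M hL →* VA M :=
  SemidirectProduct.lift (vA M hL hKY) (vT M) (by
    intro u
    apply Artin.hom_ext
    intro β
    show vA M hL hKY (artAct (hatM_smul M.toCoxeterSystem hL) u (Artin.gen _ β)) =
      vT M u * vA M hL hKY (Artin.gen _ β) * (vT M u)⁻¹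
    rw [artAct_gen, vA_gen, vA_gen]
    obtain ⟨w, i, h⟩ := β.2
    rw [vd_eq M hKY β w i h, vd_eq M hKY (u • β) (u * w) i]
    · rw [map_mul]
      group
    · show geo M.toCoxeterSystem u β.1 = _
      rw [h, map_mul, Module.End.mul_apply])

include hKY in
/-- **the virtual Artin group embeds in the semidirect product** -/
theorem vTh_injective : Function.Injective (vTh M hL) := by
  have h : (vPs M hL hKY).comp (vTh M hL) = MonoidHom.id (VA M) := by
    apply PresentedGroup.ext
    rintro (i | i)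
    · show vPs M hL hKY (vTh M hL (vs M i)) = vs M i
      rw [vTh_s, vPs, SemidirectProduct.lift_inl, vA_gen,
        vd_eq M hKY _ 1 i (by rw [map_one, Module.End.one_apply]; rfl), map_one]
      group
    · show vPs M hL hKY (vTh M hL (vt M i)) = vt M i
      rw [vTh_t, vPs, SemidirectProduct.lift_inr, vT_simple]
  intro x y hxy
  have := congrArg (vPs M hL hKY) hxy
  rw [← MonoidHom.comp_apply, ← MonoidHom.comp_apply, h] at this
  exact this

theorem C_cox (hC : ClosedE C)
    (hcox : ∀ (S : Type) (_ : Finite S) (A : CoxeterMatrix S), C A.Group) : C M.Group := by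
  let _ : MulAction Unit B :=
    { smul := fun _ b => b
      one_smul := fun _ => rfl
      mul_smul := fun _ _ _ => rfl }
  exact hC.base.of_injective _ _ SemidirectProduct.inl SemidirectProduct.inl_injective
    (C_EC (Q := Unit) (M := M) (fun _ _ _ => rfl) hC hcox
      (Pool.Agent.Y812.SS.C_subsingleton hC.base Unit))

include hKY in
/-- **virtual Artin groups** -/
theorem va_main (hC : ClosedE C)
    (hcox : ∀ (S : Type) (_ : Finite S) (A : CoxeterMatrix S), C A.Group)
    (hK : ∀ K : Set (Phi M.toCoxeterSystem), K.Finite →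
      (∀ i ∈ K, ∀ j ∈ K, hatM M.toCoxeterSystem hL i j ≠ 0) → Conn (hatM M.toCoxeterSystem hL) K →
      C (Artin (subM (hatM M.toCoxeterSystem hL) K))) : C (VA M) :=
  hC.base.of_injective _ _ (vTh M hL) (vTh_injective M hL hKY)
    (semi_main _ hC hcox (C_cox M hC hcox) (conn_suff hC.base hK))

end va

end Pool.Agent.J6H36.AR
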