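import Pool.Agent.J6H36.AR.VA
import Pool.Agent.J6H36.AR.Defs3
import Pool.Agent.J6H94.AR.Key
import Pool.Agent.J6H92.AR.RootA
import Pool.Agent.J6H95.AR.Arc

/-!
# Virtual Artin groups of spherical and affine type, virtual braid groups
-/

set_option autoImplicit false

namespace Pool.Agent.J6H36.AR

open CoxeterSystem
open Pool.Agent.R676.Cox
open Pool.Agent.Helper741 (Artin subM subM_apply incl incl_gen cc)
open Pool.Agent.Y462.SS (Closed Wr)
open Pool.Agent.Y110.FJ (ClosedE)

variable {C : ∀ (G : Type) [Group G], Prop}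

theorem t_lab : S_LAB := Pool.Agent.J6H94.AR.t_LAB
theorem t_key : S_KEY := Pool.Agent.J6H94.AR.t_KEY

/-- the Coxeter matrix on the roots of `M`: the label of `w α_i` and `w α_j` is `M i j`, and the label
of roots which are not of this form for a common `w` is infinity (`0`) -/
noncomputable def rootM {B : Type} (M : CoxeterMatrix B) : CoxeterMatrix (Phi M.toCoxeterSystem) :=
  hatM M.toCoxeterSystem t_lab

theorem conn_sub {B : Type} {M : CoxeterMatrix B} {K : Set B} (h : Conn M K) :
    Conn (subM M K) Set.univ := by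
  obtain ⟨⟨x, hx⟩, h2⟩ := h
  refine ⟨⟨⟨x, hx⟩, trivial⟩, ?_⟩
  intro T _ hT hT'
  obtain ⟨i, hi, j, hj, hij⟩ := h2 (Subtype.val '' T) (by rintro _ ⟨y, _, rfl⟩; exact y.2)
    (hT.image _) (by
      obtain ⟨y, _, hy⟩ := hT'
      exact ⟨y.1, y.2, fun ⟨z, hz, hzy⟩ => hy (Subtype.ext hzy ▸ hz)⟩)
  obtain ⟨i, hi, rfl⟩ := hi
  exact ⟨i, hi, ⟨j, hj.1⟩, ⟨trivial, fun hc => hj.2 ⟨_, hc, rfl⟩⟩, hij⟩

/-- embeddings of Coxeter matrices give embeddings of Artin groups (finite rank) -/
theorem C_embed (hC : Closed C) {K B : Type} [Finite K] {N : CoxeterMatrix K} {M : CoxeterMatrix B}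
    (f : K → B) (hf : Function.Injective f) (h : ∀ x y, M (f x) (f y) = N x y)
    (hM : C (Artin M)) : C (Artin N) := by
  have hfin : Finite (Set.range f) := Set.finite_range f
  refine C_relab hC (M' := subM M (Set.range f)) (Equiv.ofInjective f hf) h ?_
  exact hC.of_injective _ _ (incl M (Set.range f)) (incl_injective _) hM

/-- **virtual braid groups** -/
theorem vb_main (hC : ClosedE C)
    (hcox : ∀ (S : Type) (_ : Finite S) (A : CoxeterMatrix S), C A.Group)
    (hcyc : ∀ m : ℕ, 3 ≤ m → C (Artin (cyc m))) (n : ℕ) : C (VA (CoxeterMatrix.A n)) := by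
  refine va_main (CoxeterMatrix.A n) t_lab t_key hC hcox ?_
  intro K hfin h0 hconn
  obtain ⟨src, tgt, h1, h2⟩ := Pool.Agent.J6H92.AR.t_ROOTA t_lab n
  have hfK : Finite K := hfin
  obtain ⟨m, hm, f, hf, hfm⟩ := Pool.Agent.J6H95.AR.t_ARC K hfK
    (subM (hatM (CoxeterMatrix.A n).toCoxeterSystem t_lab) K) (fun x => src x.1) (fun x => tgt x.1)
    (fun x => h1 x.1) (fun x y hxy => h2 x.1 y.1 (fun h => hxy (Subtype.ext h)) (h0 _ x.2 _ y.2))
    (conn_sub hconn)
  exact C_embed hC.base f hf hfm (hcyc m hm)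

/-- the Coxeter form (up to a factor 2) is positive semidefinite: the connected components of finite
rank are of spherical or affine type -/
def PSD {B : Type} (M : CoxeterMatrix B) : Prop := ∀ v : B →₀ ℝ, 0 ≤ bil M v v

theorem bil_roots {B : Type} {M : CoxeterMatrix B} (β γ : Phi M.toCoxeterSystem)
    (h : lab M.toCoxeterSystem β γ ≠ 0) :
    -2 * Real.cos (Real.pi / (lab M.toCoxeterSystem β γ : ℝ)) = bil M β.1 γ.1 := by
  by_cases hex : ∃ p : M.Group × B × B, β.1 = geo M.toCoxeterSystem p.1 (ee p.2.1) ∧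
      γ.1 = geo M.toCoxeterSystem p.1 (ee p.2.2)
  · obtain ⟨⟨w, i, j⟩, h1, h2⟩ := hex
    rw [t_lab B _ M M.toCoxeterSystem β γ w i j h1 h2, h1, h2, bil_geo, bil_ee_left, coroot_ee, cc]
  · exact absurd (lab_zero _ _ _ hex) h

theorem psd_sub {B : Type} {M : CoxeterMatrix B} (hM : PSD M) (K : Set (Phi M.toCoxeterSystem))
    (h0 : ∀ i ∈ K, ∀ j ∈ K, rootM M i j ≠ 0) : PSD (subM (rootM M) K) := by
  intro v
  obtain ⟨L, hL⟩ : ∃ L : (K →₀ ℝ) →ₗ[ℝ] (B →₀ ℝ), ∀ x : K, L (ee x) = x.1.1 :=
    ⟨Finsupp.linearCombination ℝ (fun x : K => x.1.1), fun x => by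
      rw [ee, Finsupp.linearCombination_single, one_smul]⟩
  have key : ∀ u v : K →₀ ℝ, bil (subM (rootM M) K) u v = bil M (L u) (L v) := by
    intro u v
    induction u using Finsupp.induction_linear with
    | zero => simp [bil]
    | add f g hf hg => rw [bil_add_left, map_add, bil_add_left, hf, hg]
    | single a b =>
      have ha : Finsupp.single a b = b • ee a := by
        rw [ee, Finsupp.smul_single, smul_eq_mul, mul_one]
      rw [ha, bil_smul_left, map_smul, bil_smul_left]
      congr 1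
      induction v using Finsupp.induction_linear with
      | zero => simp [bil]
      | add f g hf hg => rw [bil_add_right, map_add, bil_add_right, hf, hg]
      | single c d =>
        have hc : Finsupp.single c d = d • ee c := by
          rw [ee, Finsupp.smul_single, smul_eq_mul, mul_one]
        rw [hc, bil_smul_right, map_smul, bil_smul_right]
        congr 1
        rw [hL, hL, bil_ee_left, coroot_ee, ← bil_roots a.1 c.1 (h0 _ a.2 _ c.2)]
        rfl
  rw [key]
  exact hM _

/-- **virtual Artin groups of spherical or affine type** -/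
theorem psd_main (hC : ClosedE C)
    (hcox : ∀ (S : Type) (_ : Finite S) (A : CoxeterMatrix S), C A.Group)
    (hart : ∀ (S : Type) (_ : Finite S) (N : CoxeterMatrix S), (∀ i j, N i j ≠ 0) →
      Conn N Set.univ → PSD N → C (Artin N))
    {B : Type} (M : CoxeterMatrix B) (hM : PSD M) : C (VA M) := by
  refine va_main M t_lab t_key hC hcox ?_
  intro K hfin h0 hconn
  exact hart K hfin _ (fun i j => h0 _ i.2 _ j.2) (conn_sub hconn) (psd_sub hM K h0)

/-- the structure of virtual Artin groups -/
theorem va_iso {B : Type} (M : CoxeterMatrix B) :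
    Nonempty (VA M ≃* SA M t_lab) := by
  refine ⟨MulEquiv.ofBijective (vTh M t_lab) ⟨vTh_injective M t_lab t_key, ?_⟩⟩
  rw [← MonoidHom.range_eq_top]
  obtain ⟨R, hR⟩ : ∃ R, R = (vTh M t_lab).range := ⟨_, rfl⟩
  rw [← hR]
  have hr : ∀ w : M.Group, (SemidirectProduct.inr w : SA M t_lab) ∈ R := by
    intro w
    induction w using M.toCoxeterSystem.simple_induction_left with
    | one => rw [map_one]; exact one_mem _
    | mul_simple_left w i ih =>
      rw [map_mul]
      refine mul_mem ?_ ih
      rw [hR]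
      exact ⟨vt M i, vTh_t M t_lab i⟩
  have hl : ∀ x : Artin (hatM M.toCoxeterSystem t_lab),
      (SemidirectProduct.inl x : SA M t_lab) ∈ R := by
    intro x
    induction x using Artin.induction with
    | one => rw [map_one]; exact one_mem _
    | mul x y hx hy => rw [map_mul]; exact mul_mem hx hy
    | inv x hx => rw [map_inv]; exact inv_mem hx
    | gen β =>
      obtain ⟨w, i, h⟩ := β.2
      have h1 : β = w • sr M.toCoxeterSystem i := Subtype.ext h
      rw [h1, ← artAct_gen (hatM_smul M.toCoxeterSystem t_lab), SemidirectProduct.inl_aut]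
      refine mul_mem (mul_mem (hr w) ?_) (hr _)
      rw [hR]
      exact ⟨vs M i, vTh_s M t_lab i⟩
  rw [eq_top_iff]
  intro x _
  rw [← SemidirectProduct.inl_left_mul_inr_right x]
  exact mul_mem (hl _) (hr _)

theorem va_iff (hC : ClosedE C)
    (hcox : ∀ (S : Type) (_ : Finite S) (A : CoxeterMatrix S), C A.Group)
    {B : Type} (M : CoxeterMatrix B) : C (VA M) ↔
      ∀ K : Set (Phi M.toCoxeterSystem), K.Finite → (∀ i ∈ K, ∀ j ∈ K, rootM M i j ≠ 0) →
        Conn (rootM M) K → C (Artin (subM (rootM M) K)) := by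
  refine ⟨fun h K hK _ _ => ?_, fun h => va_main M t_lab t_key hC hcox h⟩
  obtain ⟨e⟩ := va_iso M
  have hfin : Finite K := hK
  have h1 : C (Artin (rootM M)) := hC.base.of_injective _ _
    (e.symm.toMonoidHom.comp (SemidirectProduct.inl : Artin (rootM M) →* SA M t_lab))
    (e.symm.injective.comp SemidirectProduct.inl_injective) h
  exact hC.base.of_injective _ _ (incl (rootM M) K) (incl_injective K) h1

end Pool.Agent.J6H36.AR
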